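import Pool.Agent.Helper112.Pf.VChordExists
import Pool.Agent.TH298.GB.Defs2

/-! Chord profiles of planar convex sets (project GB, block PROF). -/

open MeasureTheory Set Real Filter Topology
open Pool.Agent.TH298.GB

namespace TH259.FB

/-- the point with coordinates `t, y` in the frame `u, i u` -/
noncomputable def fr (u : ℂ) (t y : ℝ) : ℂ := u * ((t : ℂ) + (y : ℂ) * Complex.I)

theorem nsq {u : ℂ} (hu : ‖u‖ = 1) : u.re ^ 2 + u.im ^ 2 = 1 := by
  have h := Complex.normSq_eq_norm_sq u
  rw [hu, Complex.normSq_apply] at h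
  linarith

theorem inn (u x : ℂ) : inner ℝ u x = u.re * x.re + u.im * x.im := by
  rw [Complex.inner, Complex.mul_re, Complex.conj_re, Complex.conj_im]
  ring

theorem fr_re (u : ℂ) (t y : ℝ) : (fr u t y).re = u.re * t - u.im * y := by simp [fr]
theorem fr_im (u : ℂ) (t y : ℝ) : (fr u t y).im = u.re * y + u.im * t := by simp [fr]

theorem inn_fr {u : ℂ} (hu : ‖u‖ = 1) (t y : ℝ) : inner ℝ u (fr u t y) = t := by
  rw [inn, fr_re, fr_im]
  have := nsq hu
  linear_combination t * this

theorem fr_surj {u : ℂ} (hu : ‖u‖ = 1) (x : ℂ) :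
    ∃ y : ℝ, x = fr u (inner ℝ u x) y := by
  refine ⟨u.re * x.im - u.im * x.re, ?_⟩
  have := nsq hu
  apply Complex.ext
  · rw [fr_re, inn]; linear_combination (-x.re) * this
  · rw [fr_im, inn]; linear_combination (-x.im) * this

theorem fr_cont (u : ℂ) : Continuous fun p : ℝ × ℝ => fr u p.1 p.2 := by
  unfold fr; fun_prop

theorem fr_comb (u : ℂ) (a b t y t' y' : ℝ) :
    a • fr u t y + b • fr u t' y' = fr u (a * t + b * t') (a * y + b * y') := by
  apply Complex.ext
  · simp only [Complex.add_re, Complex.smul_re, smul_eq_mul, fr_re]; ring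
  · simp only [Complex.add_im, Complex.smul_im, smul_eq_mul, fr_im]; ring

theorem norm_fr_sub {u : ℂ} (hu : ‖u‖ = 1) (t y y' : ℝ) :
    ‖fr u t y - fr u t y'‖ = |y - y'| := by
  have : fr u t y - fr u t y' = u * (((y - y' : ℝ) : ℂ) * Complex.I) := by
    unfold fr; push_cast; ring
  rw [this, norm_mul, norm_mul, Complex.norm_I, hu, Complex.norm_real, Real.norm_eq_abs]
  ring

/-- the measurable equivalence of the frame -/
noncomputable def frE (u : ℂ) (hu : ‖u‖ = 1) : ℝ × ℝ ≃ᵐ ℂ :=
  Complex.measurableEquivRealProd.symm.trans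
    (rotation ⟨u, mem_sphere_zero_iff_norm.2 hu⟩).toHomeomorph.toMeasurableEquiv

theorem frE_apply (u : ℂ) (hu : ‖u‖ = 1) (p : ℝ × ℝ) : frE u hu p = fr u p.1 p.2 := by
  unfold frE fr
  simp only [MeasurableEquiv.trans_apply]
  have : Complex.measurableEquivRealProd.symm p = (p.1 : ℂ) + (p.2 : ℂ) * Complex.I := by
    apply Complex.ext <;> simp
  rw [this]
  rfl

theorem frE_mp (u : ℂ) (hu : ‖u‖ = 1) : MeasurePreserving (frE u hu) volume volume := by
  have h1 := Complex.volume_preserving_equiv_real_prod.symm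
  have h2 : MeasurePreserving (rotation ⟨u, mem_sphere_zero_iff_norm.2 hu⟩) volume volume :=
    (rotation ⟨u, mem_sphere_zero_iff_norm.2 hu⟩).measurePreserving
  exact h2.comp h1

/-- Fubini in the frame -/
theorem fub {u : ℂ} (hu : ‖u‖ = 1) {K : Set ℂ} (hK : IsCompact K) {A B : ℝ} (hAB : A < B)
    {lo hi : ℝ → ℝ} (hle : ∀ t ∈ Icc A B, lo t ≤ hi t)
    (hmem : ∀ t y : ℝ, fr u t y ∈ K ↔ t ∈ Icc A B ∧ lo t ≤ y ∧ y ≤ hi t)
    {g : ℝ → ℝ} (hg : Continuous g) :
    ∫ x in K, g (inner ℝ u x) = ∫ t in A..B, (hi t - lo t) * g t := by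
  have hm := hK.measurableSet
  have hgc : Continuous fun x : ℂ => g (inner ℝ u x) :=
    hg.comp (continuous_const.inner continuous_id)
  have hind : Integrable (K.indicator fun x => g (inner ℝ u x)) := by
    rw [integrable_indicator_iff hm]
    exact hgc.continuousOn.integrableOn_compact hK
  have hmp := frE_mp u hu
  have he := (frE u hu).measurableEmbedding
  have h1 : Integrable (fun p : ℝ × ℝ => K.indicator (fun x => g (inner ℝ u x)) (fr u p.1 p.2))
      ((volume : Measure ℝ).prod volume) := by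
    have := (hmp.integrable_comp_emb he).2 hind
    refine this.congr (Eventually.of_forall fun p => ?_)
    simp only [Function.comp_apply, frE_apply]
  have h2 : ∫ x, K.indicator (fun x => g (inner ℝ u x)) x =
      ∫ p : ℝ × ℝ, K.indicator (fun x => g (inner ℝ u x)) (fr u p.1 p.2)
        ∂((volume : Measure ℝ).prod volume) := by
    rw [← hmp.integral_comp he]
    refine integral_congr_ae (Eventually.of_forall fun p => ?_)
    simp only [frE_apply]
  have h3 : ∀ t : ℝ, ∫ y, K.indicator (fun x => g (inner ℝ u x)) (fr u t y) =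
      (Icc A B).indicator (fun t => (hi t - lo t) * g t) t := by
    intro t
    by_cases ht : t ∈ Icc A B
    · rw [indicator_of_mem ht]
      have : (fun y => K.indicator (fun x => g (inner ℝ u x)) (fr u t y)) =
          (Icc (lo t) (hi t)).indicator fun _ => g t := by
        funext y
        by_cases hy : y ∈ Icc (lo t) (hi t)
        · rw [indicator_of_mem hy, indicator_of_mem ((hmem t y).2 ⟨ht, hy.1, hy.2⟩), inn_fr hu]
        · rw [indicator_of_notMem hy, indicator_of_notMem]
          intro h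
          exact hy ((hmem t y).1 h).2
      rw [this, integral_indicator measurableSet_Icc, setIntegral_const, smul_eq_mul,
        measureReal_def, Real.volume_Icc, ENNReal.toReal_ofReal (sub_nonneg.2 (hle t ht))]
    · rw [indicator_of_notMem ht]
      have : (fun y => K.indicator (fun x => g (inner ℝ u x)) (fr u t y)) = fun _ => 0 := by
        funext y
        rw [indicator_of_notMem]
        intro h
        exact ht ((hmem t y).1 h).1
      rw [this, integral_zero]
  rw [← integral_indicator hm, h2, integral_prod _ h1]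
  simp only [h3]
  rw [integral_indicator measurableSet_Icc, integral_Icc_eq_integral_Ioc,
    intervalIntegral.integral_of_le hAB.le]

theorem prof_of : ProfOf := by
  intro Ω hΩ u hu
  set K := closure Ω with hKdef
  have hKc : IsCompact K := hΩ.bdd.isCompact_closure
  have hKconv : Convex ℝ K := hΩ.conv.closure
  have hΩK : Ω ⊆ K := subset_closure
  -- the body in coordinates
  set ψ : (Fin 2 → ℝ) → ℂ := fun x => fr u (x 1) (x 0) with hψ
  have hψc : Continuous ψ := by rw [hψ]; unfold fr; fun_prop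
  set K1 : Set (Fin 2 → ℝ) := ψ ⁻¹' K with hK1
  have hinv : ∀ x : Fin 2 → ℝ, x = ![u.re * (ψ x).im - u.im * (ψ x).re, inner ℝ u (ψ x)] := by
    intro x
    have h := nsq hu
    ext i
    fin_cases i
    · simp only [hψ, fr_re, fr_im, Fin.zero_eta, Matrix.cons_val_zero]
      linear_combination (-(x 0)) * h
    · simp only [hψ, Fin.mk_one, Matrix.cons_val_one, inn_fr hu]
      rfl
  have hK1c : IsCompact K1 := by
    have hc : Continuous fun z : ℂ => (![u.re * z.im - u.im * z.re, inner ℝ u z] : Fin 2 → ℝ) := by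
      rw [continuous_pi_iff]
      intro i
      fin_cases i
      · simp only [Fin.zero_eta, Matrix.cons_val_zero]; fun_prop
      · simp only [Fin.mk_one, Matrix.cons_val_one]
        exact continuous_const.inner continuous_id
    refine (hKc.image hc).of_isClosed_subset (hKc.isClosed.preimage hψc) ?_
    intro x hx
    exact ⟨ψ x, hx, (hinv x).symm⟩
  have hB : Helper112.Pf.IsBody K1 := by
    refine ⟨hK1c, ?_, ?_⟩
    · intro x hx y hy a b ha hb hab
      have := hKconv hx hy ha hb hab
      simp only [hψ] at this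
      rw [fr_comb] at this
      exact this
    · obtain ⟨z, hz⟩ := hΩ.ne
      obtain ⟨y, hy⟩ := fr_surj hu z
      refine ⟨![y, inner ℝ u z], ?_⟩
      rw [mem_interior]
      refine ⟨ψ ⁻¹' Ω, preimage_mono hΩK, hΩ.op.preimage hψc, ?_⟩
      change fr u _ _ ∈ Ω
      simp only [Matrix.cons_val_one, Matrix.cons_val_zero]
      rw [← hy]
      exact hz
  obtain ⟨A, B, lo, hi, hAB, hlo, hhi, hloc, hhic, hle, hlt, hKeq⟩ :=
    Helper112.Pf.chord_exists K1 hB
  have hmem : ∀ t y : ℝ, fr u t y ∈ K ↔ t ∈ Icc A B ∧ lo t ≤ y ∧ y ≤ hi t := by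
    intro t y
    have h1 : fr u t y ∈ K ↔ (![y, t] : Fin 2 → ℝ) ∈ K1 := by
      rw [hK1, mem_preimage, hψ]
      simp
    rw [h1, hKeq]
    simp
  have hfr0 : volume (frontier Ω) = 0 := hΩ.conv.addHaar_frontier volume
  have hae : (K : Set ℂ) =ᵐ[volume] Ω := by
    have h1 : K \ Ω ⊆ frontier Ω := by
      intro x hx
      rw [hΩ.op.frontier_eq]
      exact hx
    have h2 : volume (K \ Ω) = 0 := measure_mono_null h1 hfr0
    refine Filter.EventuallyLE.antisymm ?_ (hΩK.eventuallyLE)
    exact ae_le_set.2 h2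
  have hfub : ∀ g : ℝ → ℝ, Continuous g →
      ∫ x in Ω, g (inner ℝ u x) = ∫ t in A..B, (hi t - lo t) * g t := by
    intro g hg
    rw [← fub hu hKc hAB hle hmem hg]
    exact (setIntegral_congr_set hae).symm
  have hinK : ∀ x ∈ K, A ≤ inner ℝ u x ∧ inner ℝ u x ≤ B := by
    intro x hx
    obtain ⟨y, hy⟩ := fr_surj hu x
    have h1 : fr u (inner ℝ u x) y ∈ K := by rw [← hy]; exact hx
    exact ((hmem _ _).1 h1).1
  have hsc : ContinuousOn (fun t => hi t - lo t) (Icc A B) := hhic.sub hloc
  refine ⟨A, B, fun t => hi t - lo t, ⟨⟨hAB, hhi.sub hlo, hsc, fun t ht =>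
    sub_nonneg.2 (hle t ht), ?_, ?_⟩, ?_, ?_, ?_, ?_, ?_, ?_⟩⟩
  · rw [← hfub cos continuous_cos]; exact hΩ.fcos u hu
  · rw [← hfub sin continuous_sin]; exact hΩ.fsin u hu
  · -- strict membership
    intro x hx
    obtain ⟨δ, hδ0, hδ⟩ := Metric.isOpen_iff.1 hΩ.op x hx
    have hin : ∀ c : ℝ, |c| < δ → x + (c : ℂ) * u ∈ Ω := by
      intro c hc
      refine hδ ?_
      rw [Metric.mem_ball, dist_eq_norm, add_sub_cancel_left, norm_mul, hu, mul_one,
        Complex.norm_real, Real.norm_eq_abs]
      exact hc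
    have hval : ∀ c : ℝ, inner ℝ u (x + (c : ℂ) * u) = inner ℝ u x + c := by
      intro c
      rw [inn, inn]
      have h := nsq hu
      simp only [Complex.add_re, Complex.add_im, Complex.mul_re, Complex.mul_im,
        Complex.ofReal_re, Complex.ofReal_im, zero_mul, sub_zero, add_zero]
      linear_combination c * h
    have h1 := hinK _ (hΩK (hin (δ / 2) (by rw [abs_of_pos (by linarith)]; linarith)))
    have h2 := hinK _ (hΩK (hin (-(δ / 2)) (by
      rw [abs_neg, abs_of_pos (by linarith)]; linarith)))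
    rw [hval] at h1 h2
    constructor <;> linarith [h1.2, h2.1]
  · -- every height is attained in Ω
    intro t ht
    have hcI : Continuous fun x : ℂ => inner ℝ u x := continuous_const.inner continuous_id
    have hAm : A ∈ Icc A B := ⟨le_rfl, hAB.le⟩
    have hBm : B ∈ Icc A B := ⟨hAB.le, le_rfl⟩
    have hzA : fr u A (lo A) ∈ closure Ω := (hmem _ _).2 ⟨hAm, le_rfl, hle A hAm⟩
    have hzB : fr u B (lo B) ∈ closure Ω := (hmem _ _).2 ⟨hBm, le_rfl, hle B hBm⟩
    obtain ⟨x1, hx1, hx1Ω⟩ := mem_closure_iff.1 hzA {x | inner ℝ u x < t}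
      (isOpen_lt hcI continuous_const) (by rw [mem_ofPred_eq, inn_fr hu]; exact ht.1)
    obtain ⟨x2, hx2, hx2Ω⟩ := mem_closure_iff.1 hzB {x | t < inner ℝ u x}
      (isOpen_lt continuous_const hcI) (by rw [mem_ofPred_eq, inn_fr hu]; exact ht.2)
    rw [mem_ofPred_eq] at hx1 hx2
    obtain ⟨t1, ht1⟩ : ∃ t1, t1 = inner ℝ u x1 := ⟨_, rfl⟩
    obtain ⟨t2, ht2⟩ : ∃ t2, t2 = inner ℝ u x2 := ⟨_, rfl⟩
    rw [← ht1] at hx1
    rw [← ht2] at hx2
    have hd : 0 < t2 - t1 := by linarith
    refine ⟨((t2 - t) / (t2 - t1)) • x1 + ((t - t1) / (t2 - t1)) • x2,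
      hΩ.conv hx1Ω hx2Ω (div_nonneg (by linarith) hd.le) (div_nonneg (by linarith) hd.le)
        (by field_simp; ring), ?_⟩
    rw [inner_add_right, inner_smul_right, inner_smul_right, ← ht1, ← ht2]
    field_simp
    ring
  · -- area
    have h1 := hfub (fun _ => 1) continuous_const
    simp only [mul_one] at h1
    rw [← h1, setIntegral_const, smul_eq_mul, mul_one, measureReal_def]
  · -- centroid
    have h1 := hfub (fun t => t) continuous_id
    have h2 : ∫ x in Ω, inner ℝ u x = 0 := by
      have hb : ∀ f : ℂ → ℝ, Continuous f → IntegrableOn f Ω := fun f hf =>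
        (hf.continuousOn.integrableOn_compact hKc).mono_set hΩK
      have e : ∀ x : ℂ, inner ℝ u x = u.re * x.re + u.im * x.im := fun x => inn u x
      simp_rw [e]
      rw [integral_add ((hb _ Complex.continuous_re).const_mul _)
        ((hb _ Complex.continuous_im).const_mul _), integral_const_mul, integral_const_mul,
        hΩ.cre, hΩ.cim]
      simp
    rw [h2] at h1
    rw [h1]
    refine intervalIntegral.integral_congr fun t _ => ?_
    ring
  · -- chords
    intro P hP Q hQ hPQ
    obtain ⟨y, hy⟩ := fr_surj hu P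
    obtain ⟨y', hy'⟩ := fr_surj hu Q
    rw [← hPQ] at hy'
    obtain ⟨t, ht⟩ : ∃ t, t = inner ℝ u P := ⟨_, rfl⟩
    rw [← ht] at hy hy'
    rw [hy] at hP
    rw [hy'] at hQ
    have h1 := (hmem _ _).1 hP
    have h2 := (hmem _ _).1 hQ
    refine ⟨t, h1.1, ?_⟩
    rw [hy, hy', norm_fr_sub hu, abs_le]
    constructor <;> linarith [h1.2.1, h1.2.2, h2.2.1, h2.2.2]
  · -- attained
    intro t ht
    refine ⟨fr u t (lo t), (hmem _ _).2 ⟨ht, le_rfl, hle t ht⟩, ?_⟩
    have e : fr u t (lo t) + ((hi t - lo t : ℝ) : ℂ) * (Complex.I * u) = fr u t (hi t) := by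
      unfold fr; push_cast; ring
    rw [e]
    exact (hmem _ _).2 ⟨ht, hle t ht, le_rfl⟩

end TH259.FB
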