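import Pool.Agent.TH234.BK.Main
import Pool.Agent.TH234.BK.Circ
import Pool.Agent.TH259.FB.PROF

/-! If one width is smaller than `4π` then all widths are (project GB). -/

open MeasureTheory Set Real Filter Topology
open Pool.Agent.TH234.BK

namespace TH259.FB

/-- coordinates of the plane -/
noncomputable def cx (x : Fin 2 → ℝ) : ℂ := (x 0 : ℂ) + (x 1 : ℂ) * Complex.I

theorem cx_re (x : Fin 2 → ℝ) : (cx x).re = x 0 := by simp [cx]
theorem cx_im (x : Fin 2 → ℝ) : (cx x).im = x 1 := by simp [cx]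
theorem cx_cont : Continuous cx := by unfold cx; fun_prop

theorem cx_eq (x : Fin 2 → ℝ) : cx x = Complex.measurableEquivPi.symm x := by
  apply Complex.ext
  · rw [cx_re]; simp
  · rw [cx_im]; simp

theorem cx_surj (z : ℂ) : cx ![z.re, z.im] = z := by
  apply Complex.ext
  · rw [cx_re]; simp
  · rw [cx_im]; simp

/-- the body in coordinates -/
def KK (Ω : Set ℂ) : Set (Fin 2 → ℝ) := cx ⁻¹' (closure Ω)

theorem KK_body {Ω : Set ℂ} (ho : IsOpen Ω) (hc : Convex ℝ Ω) (hb : Bornology.IsBounded Ω)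
    (hne : Ω.Nonempty) : Helper112.Pf.IsBody (KK Ω) := by
  have hKc : IsCompact (closure Ω) := hb.isCompact_closure
  refine ⟨?_, ?_, ?_⟩
  · have hc' : Continuous fun z : ℂ => (![z.re, z.im] : Fin 2 → ℝ) := by
      rw [continuous_pi_iff]
      intro i
      fin_cases i
      · exact Complex.continuous_re
      · exact Complex.continuous_im
    refine (hKc.image hc').of_isClosed_subset (hKc.isClosed.preimage cx_cont) ?_
    intro x hx
    refine ⟨cx x, hx, ?_⟩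
    ext i
    fin_cases i
    · simp [cx_re]
    · simp [cx_im]
  · intro x hx y hy a b ha hb' hab
    have := hc.closure hx hy ha hb' hab
    have e : a • cx x + b • cx y = cx (a • x + b • y) := by
      apply Complex.ext <;> simp [cx]
    rw [e] at this
    exact this
  · obtain ⟨z, hz⟩ := hne
    refine ⟨![z.re, z.im], ?_⟩
    rw [mem_interior]
    refine ⟨cx ⁻¹' Ω, preimage_mono subset_closure, ho.preimage cx_cont, ?_⟩
    rw [mem_preimage, cx_surj]
    exact hz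

theorem KK_int {Ω : Set ℂ} (ho : IsOpen Ω) (hc : Convex ℝ Ω) (f : ℂ → ℂ) :
    ∫ x in KK Ω, f (cx x) = ∫ z in Ω, f z := by
  have hmp : MeasurePreserving Complex.measurableEquivPi.symm volume volume :=
    Complex.volume_preserving_equiv_pi.symm
  have he := Complex.measurableEquivPi.symm.measurableEmbedding
  have h1 := hmp.setIntegral_preimage_emb he f (closure Ω)
  have e1 : (Complex.measurableEquivPi.symm ⁻¹' closure Ω) = KK Ω := by
    ext x
    rw [mem_preimage, ← cx_eq]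
    rfl
  rw [e1] at h1
  have e2 : ∫ x in KK Ω, f (cx x) = ∫ x in KK Ω, f (Complex.measurableEquivPi.symm x) := by
    simp_rw [cx_eq]
  rw [e2, h1]
  have hfr0 : volume (frontier Ω) = 0 := hc.addHaar_frontier volume
  have hae : (closure Ω : Set ℂ) =ᵐ[volume] Ω := by
    have h1 : closure Ω \ Ω ⊆ frontier Ω := by
      intro x hx
      rw [ho.frontier_eq]
      exact hx
    have h2 : volume (closure Ω \ Ω) = 0 := measure_mono_null h1 hfr0
    refine Filter.EventuallyLE.antisymm ?_ (subset_closure.eventuallyLE)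
    exact ae_le_set.2 h2
  exact setIntegral_congr_set hae

theorem KK_FT {Ω : Set ℂ} (ho : IsOpen Ω) (hc : Convex ℝ Ω) (hb : Bornology.IsBounded Ω)
    {r : ℝ} (hr : 0 < r)
    (hcos : ∀ ξ : ℂ, ‖ξ‖ = r → ∫ x in Ω, cos (inner ℝ ξ x) = 0)
    (hsin : ∀ ξ : ℂ, ‖ξ‖ = r → ∫ x in Ω, sin (inner ℝ ξ x) = 0) (θ : ℝ) :
    Helper112.Pf.FT (KK Ω) ![((r * Real.cos θ : ℝ) : ℂ), ((r * Real.sin θ : ℝ) : ℂ)] = 0 := by
  obtain ⟨ξ, hξ⟩ : ∃ ξ : ℂ, ξ = ((r * Real.cos θ : ℝ) : ℂ) + ((r * Real.sin θ : ℝ) : ℂ) * Complex.I :=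
    ⟨_, rfl⟩
  have hξre : ξ.re = r * Real.cos θ := by
    rw [hξ, Complex.add_re, Complex.mul_re, Complex.ofReal_re, Complex.ofReal_re,
      Complex.ofReal_im, Complex.I_re, Complex.I_im]; ring
  have hξim : ξ.im = r * Real.sin θ := by
    rw [hξ, Complex.add_im, Complex.mul_im, Complex.ofReal_re, Complex.ofReal_im,
      Complex.ofReal_im, Complex.I_re, Complex.I_im]; ring
  have hξn : ‖ξ‖ = r := by
    have h1 : ‖ξ‖ ^ 2 = r ^ 2 := by
      rw [← Complex.normSq_eq_norm_sq, Complex.normSq_apply, hξre, hξim]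
      have := Real.cos_sq_add_sin_sq θ
      linear_combination r ^ 2 * this
    have h3 : |‖ξ‖| = |r| := (sq_eq_sq_iff_abs_eq_abs _ _).1 h1
    rwa [abs_of_nonneg (norm_nonneg _), abs_of_pos hr] at h3
  unfold Helper112.Pf.FT
  have e1 : ∀ x : Fin 2 → ℝ, Complex.exp (-(Complex.I * ∑ i, (x i : ℂ) *
      (![((r * Real.cos θ : ℝ) : ℂ), ((r * Real.sin θ : ℝ) : ℂ)] : Fin 2 → ℂ) i)) =
      (fun z : ℂ => ((cos (inner ℝ ξ z) : ℝ) : ℂ) - ((sin (inner ℝ ξ z) : ℝ) : ℂ) * Complex.I)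
        (cx x) := by
    intro x
    rw [Fin.sum_univ_two]
    simp only [Matrix.cons_val_zero, Matrix.cons_val_one]
    rw [inn, cx_re, cx_im, hξre, hξim]
    have e : -(Complex.I * ((x 0 : ℂ) * ((r * Real.cos θ : ℝ) : ℂ)
        + (x 1 : ℂ) * ((r * Real.sin θ : ℝ) : ℂ)))
        = (((-(r * Real.cos θ * x 0 + r * Real.sin θ * x 1)) : ℝ) : ℂ) * Complex.I := by
      push_cast; ring
    rw [e, Complex.exp_mul_I, ← Complex.ofReal_cos, ← Complex.ofReal_sin, Real.cos_neg,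
      Real.sin_neg]
    push_cast
    ring
  have e2 : (fun x : Fin 2 → ℝ => Complex.exp (-(Complex.I * ∑ i, (x i : ℂ) *
      (![((r * Real.cos θ : ℝ) : ℂ), ((r * Real.sin θ : ℝ) : ℂ)] : Fin 2 → ℂ) i))) =
      fun x => (fun z : ℂ => ((cos (inner ℝ ξ z) : ℝ) : ℂ)
        - ((sin (inner ℝ ξ z) : ℝ) : ℂ) * Complex.I) (cx x) := funext e1
  rw [e2]
  have e3 := KK_int ho hc (fun z : ℂ => ((cos (inner ℝ ξ z) : ℝ) : ℂ)
        - ((sin (inner ℝ ξ z) : ℝ) : ℂ) * Complex.I)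
  refine e3.trans ?_
  have hfin : IsFiniteMeasure (volume.restrict Ω) := ⟨by
    rw [Measure.restrict_apply_univ]; exact hb.measure_lt_top⟩
  have hic : Integrable (fun z : ℂ => ((cos (inner ℝ ξ z) : ℝ) : ℂ)) (volume.restrict Ω) := by
    refine Integrable.of_bound (C := 1) ?_ (Eventually.of_forall fun z => ?_)
    · have : Continuous fun z : ℂ => ((cos (inner ℝ ξ z) : ℝ) : ℂ) :=
        Complex.continuous_ofReal.comp (continuous_cos.comp (continuous_const.inner continuous_id))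
      exact this.aestronglyMeasurable
    · rw [Complex.norm_real, Real.norm_eq_abs]; exact abs_cos_le_one _
  have his : Integrable (fun z : ℂ => ((sin (inner ℝ ξ z) : ℝ) : ℂ)) (volume.restrict Ω) := by
    refine Integrable.of_bound (C := 1) ?_ (Eventually.of_forall fun z => ?_)
    · have : Continuous fun z : ℂ => ((sin (inner ℝ ξ z) : ℝ) : ℂ) :=
        Complex.continuous_ofReal.comp (continuous_sin.comp (continuous_const.inner continuous_id))
      exact this.aestronglyMeasurable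
    · rw [Complex.norm_real, Real.norm_eq_abs]; exact abs_sin_le_one _
  have j1 : ∫ z in Ω, ((cos (inner ℝ ξ z) : ℝ) : ℂ) = ((∫ z in Ω, cos (inner ℝ ξ z) : ℝ) : ℂ) :=
    integral_ofReal
  have j2 : ∫ z in Ω, ((sin (inner ℝ ξ z) : ℝ) : ℂ) = ((∫ z in Ω, sin (inner ℝ ξ z) : ℝ) : ℂ) :=
    integral_ofReal
  rw [integral_sub hic (his.mul_const _), integral_mul_const, j1, j2,
    hcos ξ hξn, hsin ξ hξn]
  simp

theorem dir_exists {u : ℂ} (hu : ‖u‖ = 1) : ∃ θ : ℝ, u.re = -Real.sin θ ∧ u.im = Real.cos θ := by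
  refine ⟨Complex.arg u - π / 2, ?_, ?_⟩
  · rw [Real.sin_sub_pi_div_two, neg_neg]
    have := Complex.norm_mul_cos_arg u
    rw [hu, one_mul] at this
    exact this.symm
  · rw [Real.cos_sub_pi_div_two]
    have := Complex.norm_mul_sin_arg u
    rw [hu, one_mul] at this
    exact this.symm

theorem gg_cx {u : ℂ} {θ : ℝ} (h1 : u.re = -Real.sin θ) (h2 : u.im = Real.cos θ)
    (x : Fin 2 → ℝ) : gg θ x = inner ℝ u (cx x) := by
  rw [inn, cx_re, cx_im, h1, h2]
  rfl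

/-- If one width is less than `4π / r` then the diameter is. -/
theorem band_r {Ω : Set ℂ} (ho : IsOpen Ω) (hc : Convex ℝ Ω) (hb : Bornology.IsBounded Ω)
    (hne : Ω.Nonempty) {r : ℝ} (hr : 0 < r)
    (hcos : ∀ ξ : ℂ, ‖ξ‖ = r → ∫ x in Ω, cos (inner ℝ ξ x) = 0)
    (hsin : ∀ ξ : ℂ, ‖ξ‖ = r → ∫ x in Ω, sin (inner ℝ ξ x) = 0) {u : ℂ} (hu : ‖u‖ = 1) {w : ℝ}
    (hw : ∀ x ∈ Ω, ∀ y ∈ Ω, inner ℝ u (x - y) ≤ w) (hrw : r * w < 4 * π) :
    r * Metric.diam Ω < 4 * π := by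
  have hK := KK_body ho hc hb hne
  have hz := circle_complex hK.1 hr (KK_FT ho hc hb hr hcos hsin)
  have hC : ∀ θ, ∃ (A B : ℝ) (L : ℝ → ℝ), CD (KK Ω) r θ A B L := fun θ => chordData hK hz θ
  have hKne : (KK Ω).Nonempty := by
    obtain ⟨x, hx⟩ := hK.2.2
    exact ⟨x, interior_subset hx⟩
  -- the small width
  obtain ⟨θ0, h1, h2⟩ := dir_exists hu
  have hcl : ∀ x ∈ closure Ω, ∀ y ∈ closure Ω, inner ℝ u (x - y) ≤ w := by
    intro x hx y hy
    have hcl2 : IsClosed {p : ℂ × ℂ | inner ℝ u (p.1 - p.2) ≤ w} :=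
      isClosed_le (continuous_const.inner (continuous_fst.sub continuous_snd)) continuous_const
    have h3 : (x, y) ∈ closure (Ω ×ˢ Ω) := by
      rw [closure_prod_eq]
      exact ⟨hx, hy⟩
    exact closure_minimal (fun p hp => hw _ hp.1 _ hp.2) hcl2 h3
  have hsmall : r * wd (KK Ω) θ0 < 4 * π := by
    obtain ⟨P, hP, Q, hQ, hPQ⟩ := wd_attained hK.1 hKne θ0
    rw [← hPQ, gg_cx h1 h2, gg_cx h1 h2, ← inner_sub_right]
    exact (mul_le_mul_of_nonneg_left (hcl _ hQ _ hP) hr.le).trans_lt hrw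
  have hall : ∀ θ, r * wd (KK Ω) θ < 4 * π := by
    intro θ
    by_contra hcon
    push Not at hcon
    have hcont : Continuous fun θ => r * wd (KK Ω) θ := continuous_const.mul (wd_cont hK.1)
    have himg := mem_range_of_exists_le_of_exists_ge hcont ⟨θ0, hsmall.le⟩ ⟨θ, hcon⟩
    obtain ⟨θ', hθ'⟩ := himg
    refine wd_ne hr hC θ' 2 (by norm_num) ?_
    simp only at hθ'
    rw [hθ']
    push_cast
    ring
  -- the diameter
  have hKc : IsCompact (closure Ω) := hb.isCompact_closure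
  have hclne : (closure Ω).Nonempty := hne.closure
  obtain ⟨p, hp, hmax⟩ := (hKc.prod hKc).exists_isMaxOn (hclne.prod hclne)
    (f := fun p : ℂ × ℂ => dist p.1 p.2) continuous_dist.continuousOn
  have hdiam : Metric.diam Ω ≤ dist p.1 p.2 := by
    refine Metric.diam_le_of_forall_dist_le dist_nonneg fun x hx y hy => ?_
    exact hmax (show (x, y) ∈ closure Ω ×ˢ closure Ω from ⟨subset_closure hx, subset_closure hy⟩)
  have hpi := Real.pi_pos
  rcases eq_or_ne p.1 p.2 with h | h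
  · rw [h, dist_self] at hdiam
    have : r * Metric.diam Ω ≤ 0 := mul_nonpos_of_nonneg_of_nonpos hr.le hdiam
    linarith
  · have hnz : 0 < ‖p.1 - p.2‖ := norm_pos_iff.2 (sub_ne_zero.2 h)
    obtain ⟨v, hv⟩ : ∃ v : ℂ, v = ((‖p.1 - p.2‖⁻¹ : ℝ) : ℂ) * (p.1 - p.2) := ⟨_, rfl⟩
    have hvn : ‖v‖ = 1 := by
      rw [hv, norm_mul, Complex.norm_real, Real.norm_eq_abs, abs_of_pos (inv_pos.2 hnz),
        inv_mul_cancel₀ hnz.ne']
    have hvi : inner ℝ v (p.1 - p.2) = ‖p.1 - p.2‖ := by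
      have e : v = (‖p.1 - p.2‖⁻¹ : ℝ) • (p.1 - p.2) := by rw [hv, Complex.real_smul]
      rw [e, inner_smul_left, real_inner_self_eq_norm_sq]
      simp only [conj_trivial]
      field_simp
    obtain ⟨θ, g1, g2⟩ := dir_exists hvn
    have h5 := wd_ge hK.1 (θ := θ) (P := ![p.2.re, p.2.im]) (Q := ![p.1.re, p.1.im])
      (by rw [KK, mem_preimage, cx_surj]; exact hp.2)
      (by rw [KK, mem_preimage, cx_surj]; exact hp.1)
    rw [gg_cx g1 g2, gg_cx g1 g2, cx_surj, cx_surj, ← inner_sub_right, hvi] at h5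
    rw [dist_eq_norm] at hdiam
    exact (mul_le_mul_of_nonneg_left (hdiam.trans h5) hr.le).trans_lt (hall θ)

/-- frequency one -/
theorem band {Ω : Set ℂ} (ho : IsOpen Ω) (hc : Convex ℝ Ω) (hb : Bornology.IsBounded Ω)
    (hne : Ω.Nonempty)
    (hcos : ∀ ξ : ℂ, ‖ξ‖ = 1 → ∫ x in Ω, cos (inner ℝ ξ x) = 0)
    (hsin : ∀ ξ : ℂ, ‖ξ‖ = 1 → ∫ x in Ω, sin (inner ℝ ξ x) = 0) {u : ℂ} (hu : ‖u‖ = 1) {w : ℝ}
    (hw : ∀ x ∈ Ω, ∀ y ∈ Ω, inner ℝ u (x - y) ≤ w) (hrw : w < 4 * π) :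
    Metric.diam Ω < 4 * π := by
  have := band_r ho hc hb hne one_pos hcos hsin hu hw (by rw [one_mul]; exact hrw)
  rwa [one_mul] at this

end TH259.FB
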