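import Pool.Agent.TH259.FB.Num

/-! The statements `Near` and `Far` of project GB. -/

open Set Real
open Pool.Agent.TH298.GB

namespace TH259.FB

theorem pi4_lt : 4 * π < 12.567 := by
  have := Real.pi_lt_d4
  linarith

theorem n0 : ∀ l : ℝ, ((1256 : ℤ) : ℝ) / 200 ≤ l → l ≤ ((2514 : ℤ) : ℝ) / 200 → ∀ t ∈ Icc 0 l,
    l * GG 10000 (-81450) (-183000) (-180000) t ≤ t * GG 10000 (-81450) (-183000) (-180000) l :=
  num 10000 (-81450) (-183000) (-180000) (-117034) 40 756 1256 2514
    [40]
    [126, 286, 446, 606, 756]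
    [916, 1076, 1236, 1396, 1556, 1716, 1876, 2036, 2196, 2356, 2514]
    (by simp) (by simp) (by simp) rfl rfl rfl (by norm_num) (by norm_num)
    (by decide +kernel) (by decide +kernel) (by decide +kernel) (by decide +kernel)

theorem near0 : Near (1256 / 200) 2.715 := by
  refine near_of (α := -3.05) (β := 3.0) fun l h1 h2 t ht => ?_
  have := n0 l (by push_cast; linarith) (by push_cast; linarith [pi4_lt]) t ht
  unfold GG at this
  unfold gg
  push_cast at this
  linarith

theorem n1 : ∀ l : ℝ, ((1566 : ℤ) : ℝ) / 200 ≤ l → l ≤ ((2514 : ℤ) : ℝ) / 200 → ∀ t ∈ Icc 0 l,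
    l * GG 10000 (-102300) (-96000) (-231000) t ≤ t * GG 10000 (-102300) (-96000) (-231000) l :=
  num 10000 (-102300) (-96000) (-231000) (-229383) 60 1416 1566 2514
    [60]
    [133, 293, 453, 613, 773, 872, 932, 979, 1026, 1086, 1182, 1342, 1416]
    [1576, 1736, 1896, 2056, 2216, 2376, 2514]
    (by simp) (by simp) (by simp) rfl rfl rfl (by norm_num) (by norm_num)
    (by decide +kernel) (by decide +kernel) (by decide +kernel) (by decide +kernel)

theorem near1 : Near (1566 / 200) 3.41 := by
  refine near_of (α := -1.6) (β := 3.85) fun l h1 h2 t ht => ?_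
  have := n1 l (by push_cast; linarith) (by push_cast; linarith [pi4_lt]) t ht
  unfold GG at this
  unfold gg
  push_cast at this
  linarith

theorem n2 : ∀ l : ℝ, ((1746 : ℤ) : ℝ) / 200 ≤ l → l ≤ ((2514 : ℤ) : ℝ) / 200 → ∀ t ∈ Icc 0 l,
    l * GG 10000 (-113400) (-90000) (-273000) t ≤ t * GG 10000 (-113400) (-90000) (-273000) l :=
  num 10000 (-113400) (-90000) (-273000) (-266106) 100 1456 1746 2514
    [100]
    [225, 385, 545, 705, 824, 920, 1014, 1150, 1310, 1456]
    [1585, 1745, 1905, 2065, 2225, 2385, 2514]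
    (by simp) (by simp) (by simp) rfl rfl rfl (by norm_num) (by norm_num)
    (by decide +kernel) (by decide +kernel) (by decide +kernel) (by decide +kernel)

theorem near2 : Near (1746 / 200) 3.78 := by
  refine near_of (α := -1.5) (β := 4.55) fun l h1 h2 t ht => ?_
  have := n2 l (by push_cast; linarith) (by push_cast; linarith [pi4_lt]) t ht
  unfold GG at this
  unfold gg
  push_cast at this
  linarith

theorem n3 : ∀ l : ℝ, ((1534 : ℤ) : ℝ) / 200 ≤ l → l ≤ ((1720 : ℤ) : ℝ) / 200 → ∀ t ∈ Icc 0 l,
    l * GG (-10000) 153450 249000 (-102000) t ≤ t * GG (-10000) 153450 249000 (-102000) l :=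
  num (-10000) 153450 249000 (-102000) 602120 20 1244 1534 1720
    [20]
    [180, 340, 500, 660, 820, 980, 1140, 1244]
    [1404, 1564, 1720]
    (by simp) (by simp) (by simp) rfl rfl rfl (by norm_num) (by norm_num)
    (by decide +kernel) (by decide +kernel) (by decide +kernel) (by decide +kernel)

theorem far3 : Far (1534 / 200) (1720 / 200) 5.115 := by
  refine far_of (α := -4.15) (β := -1.7) fun l h1 h2 t ht => ?_
  have := n3 l (by push_cast; linarith) (by push_cast; linarith) t ht
  unfold GG at this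
  unfold gg
  push_cast at this
  linarith

theorem n4 : ∀ l : ℝ, ((1720 : ℤ) : ℝ) / 200 ≤ l → l ≤ ((1800 : ℤ) : ℝ) / 200 → ∀ t ∈ Icc 0 l,
    l * GG (-10000) 153450 225000 (-222000) t ≤ t * GG (-10000) 153450 225000 (-222000) l :=
  num (-10000) 153450 225000 (-222000) 605029 100 1360 1720 1800
    [100]
    [260, 420, 580, 740, 846, 951, 1059, 1219, 1360]
    [1507, 1667, 1800]
    (by simp) (by simp) (by simp) rfl rfl rfl (by norm_num) (by norm_num)
    (by decide +kernel) (by decide +kernel) (by decide +kernel) (by decide +kernel)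

theorem far4 : Far (1720 / 200) (1800 / 200) 5.115 := by
  refine far_of (α := -3.75) (β := -3.7) fun l h1 h2 t ht => ?_
  have := n4 l (by push_cast; linarith) (by push_cast; linarith) t ht
  unfold GG at this
  unfold gg
  push_cast at this
  linarith

theorem n5 : ∀ l : ℝ, ((1800 : ℤ) : ℝ) / 200 ≤ l → l ≤ ((1830 : ℤ) : ℝ) / 200 → ∀ t ∈ Icc 0 l,
    l * GG (-10000) 153450 207000 (-264000) t ≤ t * GG (-10000) 153450 207000 (-264000) l :=
  num (-10000) 153450 207000 (-264000) 602914 20 1450 1800 1830
    [20]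
    [180, 340, 500, 660, 788, 857, 901, 945, 993, 1070, 1206, 1366, 1450]
    [1610, 1770, 1830]
    (by simp) (by simp) (by simp) rfl rfl rfl (by norm_num) (by norm_num)
    (by decide +kernel) (by decide +kernel) (by decide +kernel) (by decide +kernel)

theorem far5 : Far (1800 / 200) (1830 / 200) 5.115 := by
  refine far_of (α := -3.45) (β := -4.4) fun l h1 h2 t ht => ?_
  have := n5 l (by push_cast; linarith) (by push_cast; linarith) t ht
  unfold GG at this
  unfold gg
  push_cast at this
  linarith

theorem n6 : ∀ l : ℝ, ((1578 : ℤ) : ℝ) / 200 ≤ l → l ≤ ((1800 : ℤ) : ℝ) / 200 → ∀ t ∈ Icc 0 l,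
    l * GG (-10000) 157950 198000 (-204000) t ≤ t * GG (-10000) 157950 198000 (-204000) l :=
  num (-10000) 157950 198000 (-204000) 623861 100 1328 1578 1800
    [100]
    [260, 420, 580, 740, 889, 1038, 1198, 1328]
    [1483, 1643, 1800]
    (by simp) (by simp) (by simp) rfl rfl rfl (by norm_num) (by norm_num)
    (by decide +kernel) (by decide +kernel) (by decide +kernel) (by decide +kernel)

theorem far6 : Far (1578 / 200) (1800 / 200) 5.265 := by
  refine far_of (α := -3.3) (β := -3.4) fun l h1 h2 t ht => ?_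
  have := n6 l (by push_cast; linarith) (by push_cast; linarith) t ht
  unfold GG at this
  unfold gg
  push_cast at this
  linarith

theorem n7 : ∀ l : ℝ, ((1800 : ℤ) : ℝ) / 200 ≤ l → l ≤ ((1860 : ℤ) : ℝ) / 200 → ∀ t ∈ Icc 0 l,
    l * GG (-10000) 157950 162000 (-300000) t ≤ t * GG (-10000) 157950 162000 (-300000) l :=
  num (-10000) 157950 162000 (-300000) 632210 60 1540 1800 1860
    [60]
    [220, 380, 540, 700, 854, 968, 1083, 1240, 1400, 1540]
    [1700, 1860]
    (by simp) (by simp) (by simp) rfl rfl rfl (by norm_num) (by norm_num)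
    (by decide +kernel) (by decide +kernel) (by decide +kernel) (by decide +kernel)

theorem far7 : Far (1800 / 200) (1860 / 200) 5.265 := by
  refine far_of (α := -2.7) (β := -5.0) fun l h1 h2 t ht => ?_
  have := n7 l (by push_cast; linarith) (by push_cast; linarith) t ht
  unfold GG at this
  unfold gg
  push_cast at this
  linarith

theorem n8 : ∀ l : ℝ, ((1860 : ℤ) : ℝ) / 200 ≤ l → l ≤ ((1900 : ℤ) : ℝ) / 200 → ∀ t ∈ Icc 0 l,
    l * GG (-10000) 157950 126000 (-348000) t ≤ t * GG (-10000) 157950 126000 (-348000) l :=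
  num (-10000) 157950 126000 (-348000) 626366 20 1510 1860 1900
    [20]
    [180, 340, 500, 660, 820, 908, 959, 1006, 1053, 1127, 1259, 1419, 1510]
    [1670, 1830, 1900]
    (by simp) (by simp) (by simp) rfl rfl rfl (by norm_num) (by norm_num)
    (by decide +kernel) (by decide +kernel) (by decide +kernel) (by decide +kernel)

theorem far8 : Far (1860 / 200) (1900 / 200) 5.265 := by
  refine far_of (α := -2.1) (β := -5.8) fun l h1 h2 t ht => ?_
  have := n8 l (by push_cast; linarith) (by push_cast; linarith) t ht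
  unfold GG at this
  unfold gg
  push_cast at this
  linarith

theorem n9 : ∀ l : ℝ, ((1658 : ℤ) : ℝ) / 200 ≤ l → l ≤ ((1900 : ℤ) : ℝ) / 200 → ∀ t ∈ Icc 0 l,
    l * GG (-10000) 165900 120000 (-309000) t ≤ t * GG (-10000) 165900 120000 (-309000) l :=
  num (-10000) 165900 120000 (-309000) 674869 20 1428 1658 1900
    [20]
    [180, 340, 500, 660, 820, 975, 1131, 1291, 1428]
    [1588, 1748, 1900]
    (by simp) (by simp) (by simp) rfl rfl rfl (by norm_num) (by norm_num)
    (by decide +kernel) (by decide +kernel) (by decide +kernel) (by decide +kernel)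

theorem far9 : Far (1658 / 200) (1900 / 200) 5.53 := by
  refine far_of (α := -2.0) (β := -5.15) fun l h1 h2 t ht => ?_
  have := n9 l (by push_cast; linarith) (by push_cast; linarith) t ht
  unfold GG at this
  unfold gg
  push_cast at this
  linarith

theorem n10 : ∀ l : ℝ, ((1900 : ℤ) : ℝ) / 200 ≤ l → l ≤ ((1980 : ℤ) : ℝ) / 200 → ∀ t ∈ Icc 0 l,
    l * GG (-10000) 165900 24000 (-435000) t ≤ t * GG (-10000) 165900 24000 (-435000) l :=
  num (-10000) 165900 24000 (-435000) 682033 20 1510 1900 1980
    [20]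
    [180, 340, 500, 660, 820, 966, 1100, 1238, 1398, 1510]
    [1670, 1830, 1980]
    (by simp) (by simp) (by simp) rfl rfl rfl (by norm_num) (by norm_num)
    (by decide +kernel) (by decide +kernel) (by decide +kernel) (by decide +kernel)

theorem far10 : Far (1900 / 200) (1980 / 200) 5.53 := by
  refine far_of (α := -0.4) (β := -7.25) fun l h1 h2 t ht => ?_
  have := n10 l (by push_cast; linarith) (by push_cast; linarith) t ht
  unfold GG at this
  unfold gg
  push_cast at this
  linarith

theorem n11 : ∀ l : ℝ, ((1980 : ℤ) : ℝ) / 200 ≤ l → l ≤ ((2010 : ℤ) : ℝ) / 200 → ∀ t ∈ Icc 0 l,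
    l * GG (-10000) 165900 (-27000) (-471000) t ≤ t * GG (-10000) 165900 (-27000) (-471000) l :=
  num (-10000) 165900 (-27000) (-471000) 678922 100 1540 1980 2010
    [100]
    [260, 420, 580, 740, 900, 1010, 1119, 1237, 1397, 1540]
    [1695, 1855, 2010]
    (by simp) (by simp) (by simp) rfl rfl rfl (by norm_num) (by norm_num)
    (by decide +kernel) (by decide +kernel) (by decide +kernel) (by decide +kernel)

theorem far11 : Far (1980 / 200) (2010 / 200) 5.53 := by
  refine far_of (α := 0.45) (β := -7.85) fun l h1 h2 t ht => ?_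
  have := n11 l (by push_cast; linarith) (by push_cast; linarith) t ht
  unfold GG at this
  unfold gg
  push_cast at this
  linarith

theorem n12 : ∀ l : ℝ, ((2010 : ℤ) : ℝ) / 200 ≤ l → l ≤ ((2040 : ℤ) : ℝ) / 200 → ∀ t ∈ Icc 0 l,
    l * GG (-10000) 165900 (-84000) (-495000) t ≤ t * GG (-10000) 165900 (-84000) (-495000) l :=
  num (-10000) 165900 (-84000) (-495000) 670958 20 1560 2010 2040
    [20]
    [180, 340, 500, 660, 820, 956, 1024, 1065, 1107, 1156, 1244, 1404, 1560]
    [1682, 1842, 2002, 2040]
    (by simp) (by simp) (by simp) rfl rfl rfl (by norm_num) (by norm_num)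
    (by decide +kernel) (by decide +kernel) (by decide +kernel) (by decide +kernel)

theorem far12 : Far (2010 / 200) (2040 / 200) 5.53 := by
  refine far_of (α := 1.4) (β := -8.25) fun l h1 h2 t ht => ?_
  have := n12 l (by push_cast; linarith) (by push_cast; linarith) t ht
  unfold GG at this
  unfold gg
  push_cast at this
  linarith

theorem n13 : ∀ l : ℝ, ((1980 : ℤ) : ℝ) / 200 ≤ l → l ≤ ((2240 : ℤ) : ℝ) / 200 → ∀ t ∈ Icc 0 l,
    l * GG (-10000) 198000 (-531000) (-438000) t ≤ t * GG (-10000) 198000 (-531000) (-438000) l :=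
  num (-10000) 198000 (-531000) (-438000) 899010 20 1760 1980 2240
    [20]
    [180, 340, 500, 660, 820, 980, 1140, 1300, 1460, 1620, 1760]
    [1920, 2080, 2240]
    (by simp) (by simp) (by simp) rfl rfl rfl (by norm_num) (by norm_num)
    (by decide +kernel) (by decide +kernel) (by decide +kernel) (by decide +kernel)

theorem far13 : Far (1980 / 200) (2240 / 200) 6.6 := by
  refine far_of (α := 8.85) (β := -7.3) fun l h1 h2 t ht => ?_
  have := n13 l (by push_cast; linarith) (by push_cast; linarith) t ht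
  unfold GG at this
  unfold gg
  push_cast at this
  linarith

theorem n14 : ∀ l : ℝ, ((2240 : ℤ) : ℝ) / 200 ≤ l → l ≤ ((2400 : ℤ) : ℝ) / 200 → ∀ t ∈ Icc 0 l,
    l * GG (-10000) 198000 (-1446000) (-231000) t ≤ t * GG (-10000) 198000 (-1446000) (-231000) l :=
  num (-10000) 198000 (-1446000) (-231000) 880494 100 1810 2240 2400
    [100]
    [260, 420, 580, 740, 900, 1060, 1212, 1362, 1522, 1682, 1810]
    [1961, 2121, 2281, 2400]
    (by simp) (by simp) (by simp) rfl rfl rfl (by norm_num) (by norm_num)
    (by decide +kernel) (by decide +kernel) (by decide +kernel) (by decide +kernel)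

theorem far14 : Far (2240 / 200) (2400 / 200) 6.6 := by
  refine far_of (α := 24.1) (β := -3.85) fun l h1 h2 t ht => ?_
  have := n14 l (by push_cast; linarith) (by push_cast; linarith) t ht
  unfold GG at this
  unfold gg
  push_cast at this
  linarith

theorem n15 : ∀ l : ℝ, ((2400 : ℤ) : ℝ) / 200 ≤ l → l ≤ ((2460 : ℤ) : ℝ) / 200 → ∀ t ∈ Icc 0 l,
    l * GG (-10000) 198000 (-4131000) (-363000) t ≤ t * GG (-10000) 198000 (-4131000) (-363000) l :=
  num (-10000) 198000 (-4131000) (-363000) 898475 100 1900 2400 2460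
    [100]
    [260, 420, 580, 740, 900, 1060, 1195, 1327, 1469, 1629, 1789, 1900]
    [2060, 2220, 2380, 2460]
    (by simp) (by simp) (by simp) rfl rfl rfl (by norm_num) (by norm_num)
    (by decide +kernel) (by decide +kernel) (by decide +kernel) (by decide +kernel)

theorem far15 : Far (2400 / 200) (2460 / 200) 6.6 := by
  refine far_of (α := 68.85) (β := -6.05) fun l h1 h2 t ht => ?_
  have := n15 l (by push_cast; linarith) (by push_cast; linarith) t ht
  unfold GG at this
  unfold gg
  push_cast at this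
  linarith

theorem n16 : ∀ l : ℝ, ((2460 : ℤ) : ℝ) / 200 ≤ l → l ≤ ((2514 : ℤ) : ℝ) / 200 → ∀ t ∈ Icc 0 l,
    l * GG (-10000) 198000 (-6222000) 762000 t ≤ t * GG (-10000) 198000 (-6222000) 762000 l :=
  num (-10000) 198000 (-6222000) 762000 888349 40 1980 2460 2514
    [40]
    [98, 239, 399, 559, 719, 879, 1039, 1193, 1262, 1332, 1407, 1567, 1727, 1887, 1980]
    [2140, 2300, 2460, 2514]
    (by simp) (by simp) (by simp) rfl rfl rfl (by norm_num) (by norm_num)
    (by decide +kernel) (by decide +kernel) (by decide +kernel) (by decide +kernel)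

theorem far16 : Far (2460 / 200) (2514 / 200) 6.6 := by
  refine far_of (α := 103.7) (β := 12.7) fun l h1 h2 t ht => ?_
  have := n16 l (by push_cast; linarith) (by push_cast; linarith) t ht
  unfold GG at this
  unfold gg
  push_cast at this
  linarith

theorem near_a : Near 6.28 2.715 := by
  have h : (6.28 : ℝ) = 1256 / 200 := by norm_num
  rw [h]; exact near0

theorem near_b : Near 7.83 3.41 := by
  have h : (7.83 : ℝ) = 1566 / 200 := by norm_num
  rw [h]; exact near1

theorem near_c : Near 8.73 3.78 := by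
  have h : (8.73 : ℝ) = 1746 / 200 := by norm_num
  rw [h]; exact near2

theorem far_sub {l0 l1 l0' l1' R : ℝ} (h : Far l0 l1 R) (h0 : l0 ≤ l0') (h1 : l1' ≤ l1) :
    Far l0' l1' R := fun a b s hs hw hb => h a b s hs (h0.trans hw) (hb.trans h1)

theorem far_full_a : Far 0 9.15 5.115 :=
  far_sub (far_union (far_union (far_union (far_triv (l0 := 0) (l1 := 1534 / 200) (R := 5.115) (by norm_num)) far3) far4) far5)
    le_rfl (by norm_num)

theorem far_a : Far 8.5 9.15 5.115 := far_sub far_full_a (by norm_num) le_rfl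

theorem far_full_b : Far 0 9.5 5.265 :=
  far_sub (far_union (far_union (far_union (far_triv (l0 := 0) (l1 := 1578 / 200) (R := 5.265) (by norm_num)) far6) far7) far8)
    le_rfl (by norm_num)

theorem far_b : Far 8.6 9.5 5.265 := far_sub far_full_b (by norm_num) le_rfl

theorem far_full_c : Far 0 10.2 5.53 :=
  far_sub (far_union (far_union (far_union (far_union (far_triv (l0 := 0) (l1 := 1658 / 200) (R := 5.53) (by norm_num)) far9) far10) far11) far12)
    le_rfl (by norm_num)

theorem far_c : Far 9.3 10.2 5.53 := far_sub far_full_c (by norm_num) le_rfl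

theorem far_full_d : Far 0 12.567 6.6 :=
  far_sub (far_union (far_union (far_union (far_union (far_triv (l0 := 0) (l1 := 1980 / 200) (R := 6.6) (by norm_num)) far13) far14) far15) far16)
    le_rfl (by norm_num)

theorem far_d : Far 10.38 12.567 6.6 := far_sub far_full_d (by norm_num) le_rfl

theorem far_d' : Far 10.38 (4 * π) 6.6 := far_sub far_full_d (by norm_num) pi4_lt.le

end TH259.FB
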