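import Mathlib

/-! A dual certificate for integral inequalities of concave functions: if `H'' = w` off a
point `p`, `H ≤ 0`, `H = 0` at the ends, then `∫ w L + [H'](p) L p ≥ 0` for every concave
`L ≥ 0`. The proof approximates `L` by Bernstein polynomials. -/

open MeasureTheory Set Real intervalIntegral Filter Topology

namespace TH259.FB

noncomputable def bp (n : ℕ) (c : ℕ → ℝ) : Polynomial ℝ :=
  ∑ k ∈ Finset.range (n + 1), Polynomial.C (c k) * bernsteinPolynomial ℝ n k

theorem bp_derivative (n : ℕ) (c : ℕ → ℝ) :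
    Polynomial.derivative (bp (n + 1) c)
      = Polynomial.C ((n : ℝ) + 1) * bp n (fun k => c (k + 1) - c k) := by
  unfold bp
  rw [Finset.sum_range_succ', Polynomial.derivative_add, Polynomial.derivative_sum]
  have e1 : ∀ k, Polynomial.derivative (Polynomial.C (c (k + 1))
      * bernsteinPolynomial ℝ (n + 1) (k + 1))
      = Polynomial.C ((n : ℝ) + 1) * (Polynomial.C (c (k + 1)) * bernsteinPolynomial ℝ n k)
        - Polynomial.C ((n : ℝ) + 1)
          * (Polynomial.C (c (k + 1)) * bernsteinPolynomial ℝ n (k + 1)) := by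
    intro k
    rw [Polynomial.derivative_C_mul, bernsteinPolynomial.derivative_succ]
    simp only [Nat.add_sub_cancel, Nat.cast_add, Nat.cast_one, map_add, map_natCast, map_one]
    ring
  rw [Finset.sum_congr rfl (fun k _ => e1 k), Polynomial.derivative_C_mul,
    bernsteinPolynomial.derivative_zero, Finset.sum_sub_distrib, ← Finset.mul_sum,
    ← Finset.mul_sum]
  have e2 : ∑ k ∈ Finset.range (n + 1),
      Polynomial.C (c (k + 1)) * bernsteinPolynomial ℝ n (k + 1)
      = ∑ k ∈ Finset.range (n + 1), Polynomial.C (c k) * bernsteinPolynomial ℝ n k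
        - Polynomial.C (c 0) * bernsteinPolynomial ℝ n 0 := by
    have h1 := Finset.sum_range_succ' (fun k => Polynomial.C (c k) * bernsteinPolynomial ℝ n k)
      (n + 1)
    have h2 := Finset.sum_range_succ (fun k => Polynomial.C (c k) * bernsteinPolynomial ℝ n k)
      (n + 1)
    rw [bernsteinPolynomial.eq_zero_of_lt ℝ (Nat.lt_succ_self n), mul_zero, add_zero] at h2
    rw [h2] at h1
    rw [h1]; ring
  have e3 : ∑ k ∈ Finset.range (n + 1), Polynomial.C (c (k + 1) - c k)
      * bernsteinPolynomial ℝ n k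
      = ∑ k ∈ Finset.range (n + 1), Polynomial.C (c (k + 1)) * bernsteinPolynomial ℝ n k
        - ∑ k ∈ Finset.range (n + 1), Polynomial.C (c k) * bernsteinPolynomial ℝ n k := by
    rw [← Finset.sum_sub_distrib]
    refine Finset.sum_congr rfl fun k _ => ?_
    rw [map_sub]; ring
  rw [e2, e3]
  simp only [Nat.add_sub_cancel, Nat.cast_add, Nat.cast_one, map_add, map_natCast, map_one]
  ring

theorem bp_eval_nonpos (n : ℕ) (c : ℕ → ℝ) (hc : ∀ k ≤ n, c k ≤ 0) {x : ℝ} (h0 : 0 ≤ x)
    (h1 : x ≤ 1) : (bp n c).eval x ≤ 0 := by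
  unfold bp
  rw [Polynomial.eval_finsetSum]
  refine Finset.sum_nonpos fun k hk => ?_
  rw [Polynomial.eval_mul, Polynomial.eval_C]
  have hk' : k ≤ n := Nat.lt_succ_iff.1 (Finset.mem_range.1 hk)
  have : 0 ≤ (bernsteinPolynomial ℝ n k).eval x := by
    simp only [bernsteinPolynomial, Polynomial.eval_mul, Polynomial.eval_pow,
      Polynomial.eval_sub, Polynomial.eval_natCast, Polynomial.eval_X, Polynomial.eval_one]
    have : 0 ≤ 1 - x := by linarith
    positivity
  exact mul_nonpos_of_nonpos_of_nonneg (hc k hk') this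

/-- Bernstein approximation of a concave continuous function on `[0,1]` by concave
polynomials with the same end values. -/
theorem approx01 {f : ℝ → ℝ} (hf : ConcaveOn ℝ (Icc 0 1) f) (hfc : ContinuousOn f (Icc 0 1))
    {ε : ℝ} (hε : 0 < ε) : ∃ q : Polynomial ℝ,
      (∀ x ∈ Icc (0 : ℝ) 1, |q.eval x - f x| ≤ ε) ∧ q.eval 0 = f 0 ∧ q.eval 1 = f 1 ∧
      (∀ x ∈ Icc (0 : ℝ) 1, (Polynomial.derivative (Polynomial.derivative q)).eval x ≤ 0) ∧
      (AntitoneOn f (Icc 0 1) → (Polynomial.derivative q).eval 0 ≤ 0) := by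
  set F : C(unitInterval, ℝ) := ⟨fun x => f x, by
    rw [continuousOn_iff_continuous_domRestrict] at hfc; exact hfc⟩ with hF
  have ht := bernsteinApproximation_uniform F
  rw [Metric.tendsto_atTop] at ht
  obtain ⟨N, hN⟩ := ht ε hε
  set n := N + 2 with hn
  have hnn := hN n (by omega)
  have happ : ∀ x : unitInterval, bernsteinApproximation n F x
      = (bp n (fun k => f (k / n))).eval (x : ℝ) := by
    intro x
    rw [bernsteinApproximation.apply]
    unfold bp
    rw [Polynomial.eval_finsetSum, Finset.sum_range]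
    refine Finset.sum_congr rfl fun k _ => ?_
    rw [bernstein_apply, Polynomial.eval_mul, Polynomial.eval_C]
    simp only [bernsteinPolynomial, Polynomial.eval_mul, Polynomial.eval_pow,
      Polynomial.eval_sub, Polynomial.eval_natCast, Polynomial.eval_X, Polynomial.eval_one,
      smul_eq_mul]
    rw [mul_comm]
    rfl
  refine ⟨bp n (fun k => f (k / n)), ?_, ?_, ?_, ?_, ?_⟩
  · intro x hx
    have h1 := (ContinuousMap.dist_apply_le_dist (f := bernsteinApproximation n F) (g := F)
      ⟨x, hx⟩)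
    rw [happ, Real.dist_eq] at h1
    exact h1.trans hnn.le
  · have h1 := bernsteinApproximation.apply_zero n F
    rw [happ] at h1
    have h2 : F 0 = f 0 := by
      change f ((0 : unitInterval) : ℝ) = f 0
      rw [Set.Icc.coe_zero]
    rw [h2] at h1
    simpa using h1
  · have h1 := bernsteinApproximation.apply_one (n := n) (by omega) F
    rw [happ] at h1
    have h2 : F 1 = f 1 := by
      change f ((1 : unitInterval) : ℝ) = f 1
      rw [Set.Icc.coe_one]
    rw [h2] at h1
    simpa using h1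
  · intro x hx
    have e : Polynomial.derivative (Polynomial.derivative (bp n (fun k => f (k / n))))
        = Polynomial.C ((N + 1 : ℕ) + 1 : ℝ) * (Polynomial.C ((N : ℝ) + 1)
          * bp N (fun k => (f ((k + 1 + 1 : ℕ) / n) - f ((k + 1 : ℕ) / n))
            - (f ((k + 1 : ℕ) / n) - f (k / n)))) := by
      rw [hn, bp_derivative, Polynomial.derivative_C_mul, bp_derivative]
    rw [e, Polynomial.eval_mul, Polynomial.eval_mul, Polynomial.eval_C, Polynomial.eval_C]
    refine mul_nonpos_of_nonneg_of_nonpos (by positivity)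
      (mul_nonpos_of_nonneg_of_nonpos (by positivity) ?_)
    refine bp_eval_nonpos N _ (fun k hk => ?_) hx.1 hx.2
    have hnpos : (0 : ℝ) < n := by rw [hn]; positivity
    have hk2 : ((k : ℝ) + 2) ≤ n := by
      rw [hn]; push_cast
      have : (k : ℝ) ≤ N := by exact_mod_cast hk
      linarith
    have m0 : ((k : ℝ) / n) ∈ Icc (0 : ℝ) 1 := ⟨by positivity, by
      rw [div_le_one hnpos]; linarith⟩
    have m2 : (((k : ℝ) + 2) / n) ∈ Icc (0 : ℝ) 1 := ⟨by positivity, by
      rw [div_le_one hnpos]; linarith⟩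
    have h2 := hf.2 m0 m2 (by norm_num : (0 : ℝ) ≤ 1 / 2) (by norm_num : (0 : ℝ) ≤ 1 / 2)
      (by norm_num)
    simp only [smul_eq_mul] at h2
    have e2 : (1 / 2 : ℝ) * (k / n) + 1 / 2 * ((k + 2) / n) = ((k : ℝ) + 1) / n := by
      field_simp; ring
    rw [e2] at h2
    push_cast
    have e3 : ((k : ℝ) + 1 + 1) / n = (k + 2) / n := by ring
    rw [e3]
    linarith
  · intro hanti
    have e : Polynomial.derivative (bp n (fun k => f (k / n)))
        = Polynomial.C ((N + 1 : ℕ) + 1 : ℝ)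
          * bp (N + 1) (fun k => f ((k + 1 : ℕ) / n) - f (k / n)) := by
      rw [hn, bp_derivative]
    rw [e, Polynomial.eval_mul, Polynomial.eval_C]
    refine mul_nonpos_of_nonneg_of_nonpos (by positivity) ?_
    refine bp_eval_nonpos (N + 1) _ (fun k hk => ?_) le_rfl zero_le_one
    have hnpos : (0 : ℝ) < n := by rw [hn]; positivity
    have hk2 : ((k : ℝ) + 1) ≤ n := by
      rw [hn]; push_cast
      have : (k : ℝ) ≤ N + 1 := by exact_mod_cast hk
      linarith
    have m0 : ((k : ℝ) / n) ∈ Icc (0 : ℝ) 1 := ⟨by positivity, by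
      rw [div_le_one hnpos]; linarith⟩
    have m2 : (((k : ℝ) + 1) / n) ∈ Icc (0 : ℝ) 1 := ⟨by positivity, by
      rw [div_le_one hnpos]; linarith⟩
    have h2 := hanti m0 m2 (by gcongr; linarith)
    push_cast
    linarith

theorem cert_smooth {a b p : ℝ} (hap : a ≤ p) (hpb : p ≤ b) {q q1 q2 : ℝ → ℝ}
    (hq : ∀ t, HasDerivAt q (q1 t) t) (hq1 : ∀ t, HasDerivAt q1 (q2 t) t) (hq2c : Continuous q2)
    (hq2 : ∀ t ∈ Icc a b, q2 t ≤ 0) (hqa : 0 ≤ q a) (hqb : 0 ≤ q b)
    {H1 H2 D1 D2 w1 w2 : ℝ → ℝ}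
    (hH1 : ∀ t, HasDerivAt H1 (D1 t) t) (hD1 : ∀ t, HasDerivAt D1 (w1 t) t)
    (hw1 : Continuous w1)
    (hH2 : ∀ t, HasDerivAt H2 (D2 t) t) (hD2 : ∀ t, HasDerivAt D2 (w2 t) t)
    (hw2 : Continuous w2)
    (hm : H1 p = H2 p) (hn1 : ∀ t ∈ Icc a p, H1 t ≤ 0) (hn2 : ∀ t ∈ Icc p b, H2 t ≤ 0)
    (ha0 : H1 a = 0) (hb0 : H2 b = 0) (hDa : D1 a ≤ 0) (hDb : 0 ≤ D2 b) :
    0 ≤ (∫ t in a..p, w1 t * q t) + (∫ t in p..b, w2 t * q t) + (D2 p - D1 p) * q p := by
  have cq1 : Continuous q1 := continuous_iff_continuousAt.2 fun t => (hq1 t).continuousAt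
  have cq : Continuous q := continuous_iff_continuousAt.2 fun t => (hq t).continuousAt
  have cD1 : Continuous D1 := continuous_iff_continuousAt.2 fun t => (hD1 t).continuousAt
  have cD2 : Continuous D2 := continuous_iff_continuousAt.2 fun t => (hD2 t).continuousAt
  have cH1 : Continuous H1 := continuous_iff_continuousAt.2 fun t => (hH1 t).continuousAt
  have cH2 : Continuous H2 := continuous_iff_continuousAt.2 fun t => (hH2 t).continuousAt
  have part : ∀ (x y : ℝ) (H D w : ℝ → ℝ), (∀ t, HasDerivAt H (D t) t) →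
      (∀ t, HasDerivAt D (w t) t) → Continuous w → Continuous D → Continuous H →
      ∫ t in x..y, w t * q t
        = (D y * q y - H y * q1 y) - (D x * q x - H x * q1 x) + ∫ t in x..y, H t * q2 t := by
    intro x y H D w hH hD cw cD cH
    have h1 : ∫ t in x..y, (w t * q t - H t * q2 t)
        = (D y * q y - H y * q1 y) - (D x * q x - H x * q1 x) := by
      refine integral_eq_sub_of_hasDerivAt
        (f := fun t => D t * q t - H t * q1 t) (fun t _ => ?_) ?_
      · have := ((hD t).mul (hq t)).sub ((hH t).mul (hq1 t))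
        convert! this using 1
        ring
      · exact ((cw.mul cq).sub (cH.mul hq2c)).intervalIntegrable _ _
    have h2 : ∫ t in x..y, (w t * q t - H t * q2 t)
        = (∫ t in x..y, w t * q t) - ∫ t in x..y, H t * q2 t :=
      integral_sub ((cw.mul cq).intervalIntegrable _ _)
      ((cH.mul hq2c).intervalIntegrable _ _)
    linarith
  rw [part a p H1 D1 w1 hH1 hD1 hw1 cD1 cH1, part p b H2 D2 w2 hH2 hD2 hw2 cD2 cH2, ha0, hb0, hm]
  have i1 : 0 ≤ ∫ t in a..p, H1 t * q2 t := integral_nonneg hap fun t ht =>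
    mul_nonneg_of_nonpos_of_nonpos (hn1 t ht) (hq2 t ⟨ht.1, ht.2.trans hpb⟩)
  have i2 : 0 ≤ ∫ t in p..b, H2 t * q2 t := integral_nonneg hpb fun t ht =>
    mul_nonneg_of_nonpos_of_nonpos (hn2 t ht) (hq2 t ⟨hap.trans ht.1, ht.2⟩)
  have j1 : D1 a * q a ≤ 0 := mul_nonpos_of_nonpos_of_nonneg hDa hqa
  have j2 : 0 ≤ D2 b * q b := mul_nonneg hDb hqb
  linarith

theorem cert {a b p : ℝ} (hab : a < b) (hap : a ≤ p) (hpb : p ≤ b) {L : ℝ → ℝ}
    (hc : ConcaveOn ℝ (Icc a b) L) (hcont : ContinuousOn L (Icc a b))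
    (hLa : 0 ≤ L a) (hLb : 0 ≤ L b)
    {H1 H2 D1 D2 w1 w2 : ℝ → ℝ}
    (hH1 : ∀ t, HasDerivAt H1 (D1 t) t) (hD1 : ∀ t, HasDerivAt D1 (w1 t) t)
    (hw1 : Continuous w1)
    (hH2 : ∀ t, HasDerivAt H2 (D2 t) t) (hD2 : ∀ t, HasDerivAt D2 (w2 t) t)
    (hw2 : Continuous w2)
    (hm : H1 p = H2 p) (hn1 : ∀ t ∈ Icc a p, H1 t ≤ 0) (hn2 : ∀ t ∈ Icc p b, H2 t ≤ 0)
    (ha0 : H1 a = 0) (hb0 : H2 b = 0) (hDa : D1 a ≤ 0) (hDb : 0 ≤ D2 b) :
    0 ≤ (∫ t in a..p, w1 t * L t) + (∫ t in p..b, w2 t * L t) + (D2 p - D1 p) * L p := by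
  obtain ⟨B1, hB1⟩ := isCompact_Icc.exists_bound_of_continuousOn (s := Icc a b)
    hw1.continuousOn
  obtain ⟨B2, hB2⟩ := isCompact_Icc.exists_bound_of_continuousOn (s := Icc a b)
    hw2.continuousOn
  have hd : 0 < b - a := by linarith
  set C := |B1| * (p - a) + |B2| * (b - p) + |D2 p - D1 p| with hC
  have hC0 : 0 ≤ C := by
    have h1 : 0 ≤ |B1| * (p - a) := mul_nonneg (abs_nonneg _) (by linarith)
    have h2 : 0 ≤ |B2| * (b - p) := mul_nonneg (abs_nonneg _) (by linarith)
    have h3 := abs_nonneg (D2 p - D1 p)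
    linarith
  have key : ∀ ε : ℝ, 0 < ε → -(ε * C) ≤
      (∫ t in a..p, w1 t * L t) + (∫ t in p..b, w2 t * L t) + (D2 p - D1 p) * L p := by
    intro ε hε
    -- rescale
    set f : ℝ → ℝ := fun x => L (a + (b - a) * x) with hf
    have hmap : ∀ x ∈ Icc (0 : ℝ) 1, a + (b - a) * x ∈ Icc a b := by
      intro x hx
      constructor
      · nlinarith [hx.1]
      · nlinarith [hx.2]
    have hfconc : ConcaveOn ℝ (Icc 0 1) f := by
      refine ⟨convex_Icc 0 1, fun x hx y hy u v hu hv huv => ?_⟩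
      have := hc.2 (hmap x hx) (hmap y hy) hu hv huv
      simp only [smul_eq_mul] at this ⊢
      have e : u * (a + (b - a) * x) + v * (a + (b - a) * y)
          = a + (b - a) * (u * x + v * y) := by
        have : v = 1 - u := by linarith
        rw [this]; ring
      rw [e] at this
      exact this
    have hfcont : ContinuousOn f (Icc 0 1) :=
      hcont.comp (by fun_prop) hmap
    obtain ⟨q, hqf, hq0, hq1, hqdd, -⟩ := approx01 hfconc hfcont hε
    set Q : ℝ → ℝ := fun t => q.eval ((t - a) / (b - a)) with hQ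
    set Q1 : ℝ → ℝ := fun t => (Polynomial.derivative q).eval ((t - a) / (b - a)) / (b - a)
      with hQ1
    set Q2 : ℝ → ℝ := fun t =>
      (Polynomial.derivative (Polynomial.derivative q)).eval ((t - a) / (b - a)) / (b - a) ^ 2
      with hQ2
    have din : ∀ t : ℝ, HasDerivAt (fun t => (t - a) / (b - a)) (1 / (b - a)) t := fun t =>
      ((hasDerivAt_id t).sub_const a).div_const (b - a)
    have dQ : ∀ t, HasDerivAt Q (Q1 t) t := by
      intro t
      have := (q.hasDerivAt ((t - a) / (b - a))).comp t (din t)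
      convert! this using 1
      rw [hQ1]; ring
    have dQ1 : ∀ t, HasDerivAt Q1 (Q2 t) t := by
      intro t
      have := (((Polynomial.derivative q).hasDerivAt ((t - a) / (b - a))).comp t
        (din t)).div_const (b - a)
      convert! this using 1
      rw [hQ2]; field_simp
    have cQ2 : Continuous Q2 := by
      rw [hQ2]
      exact ((Polynomial.continuous _).comp (by fun_prop)).div_const _
    have hin : ∀ t ∈ Icc a b, (t - a) / (b - a) ∈ Icc (0 : ℝ) 1 := by
      intro t ht
      exact ⟨div_nonneg (by linarith [ht.1]) hd.le, by rw [div_le_one hd]; linarith [ht.2]⟩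
    have hQL : ∀ t ∈ Icc a b, |Q t - L t| ≤ ε := by
      intro t ht
      have := hqf _ (hin t ht)
      rw [hf] at this
      simp only at this
      rw [mul_div_cancel₀ _ hd.ne', add_sub_cancel] at this
      exact this
    have hs := cert_smooth hap hpb dQ dQ1 cQ2 (fun t ht =>
      div_nonpos_of_nonpos_of_nonneg (hqdd _ (hin t ht)) (by positivity))
      (by rw [hQ]; simp only [sub_self, zero_div]; rw [hq0, hf]; simpa using hLa)
      (by rw [hQ]; simp only; rw [div_self hd.ne', hq1, hf]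
          simp only [mul_one, add_sub_cancel]; exact hLb)
      hH1 hD1 hw1 hH2 hD2 hw2 hm hn1 hn2 ha0 hb0 hDa hDb
    have cQ : Continuous Q := continuous_iff_continuousAt.2 fun t => (dQ t).continuousAt
    have diff : ∀ (x y B : ℝ) (w : ℝ → ℝ), x ≤ y → a ≤ x → y ≤ b → Continuous w →
        (∀ t ∈ Icc a b, ‖w t‖ ≤ B) →
        (∫ t in x..y, w t * Q t) - (∫ t in x..y, w t * L t) ≤ ε * (|B| * (y - x)) := by
      intro x y B w hxy hax hyb cw hB
      have iL : IntervalIntegrable (fun t => w t * L t) volume x y := by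
        refine ContinuousOn.intervalIntegrable ?_
        rw [uIcc_of_le hxy]
        exact cw.continuousOn.mul (hcont.mono (Icc_subset_Icc hax hyb))
      have iQ : IntervalIntegrable (fun t => w t * Q t) volume x y :=
        (cw.mul cQ).intervalIntegrable _ _
      rw [← integral_sub iQ iL]
      have h1 : ‖∫ t in x..y, (w t * Q t - w t * L t)‖ ≤ (|B| * ε) * |y - x| := by
        refine norm_integral_le_of_norm_le_const fun t ht => ?_
        rw [uIoc_of_le hxy] at ht
        have hm : t ∈ Icc a b := ⟨hax.trans ht.1.le, ht.2.trans hyb⟩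
        rw [← mul_sub, norm_mul]
        exact mul_le_mul ((hB t hm).trans (le_abs_self _)) (hQL t hm) (norm_nonneg _)
          (abs_nonneg _)
      rw [abs_of_nonneg (by linarith : (0:ℝ) ≤ y - x)] at h1
      have h2 := (le_abs_self _).trans h1
      linarith
    have d1 := diff a p B1 w1 hap le_rfl hpb hw1 hB1
    have d2 := diff p b B2 w2 hpb hap le_rfl hw2 hB2
    have d3 : (D2 p - D1 p) * Q p - (D2 p - D1 p) * L p ≤ ε * |D2 p - D1 p| := by
      rw [← mul_sub]
      have h1 := le_abs_self ((D2 p - D1 p) * (Q p - L p))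
      rw [abs_mul] at h1
      have h2 := mul_le_mul_of_nonneg_left (hQL p ⟨hap, hpb⟩) (abs_nonneg (D2 p - D1 p))
      linarith
    rw [hC]
    linarith [d1, d2, d3, hs]
  by_contra hneg
  push Not at hneg
  set E := (∫ t in a..p, w1 t * L t) + (∫ t in p..b, w2 t * L t) + (D2 p - D1 p) * L p with hE
  have h1 := key (-E / (2 * (C + 1))) (by
    apply div_pos (by linarith) (by positivity))
  have h2 : -E / (2 * (C + 1)) * C ≤ -E / 2 := by
    rw [div_mul_eq_mul_div, div_le_div_iff₀ (by positivity) (by norm_num)]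
    nlinarith
  linarith

end TH259.FB
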