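import Pool.Agent.TH259.FB.Cert
import Pool.Agent.TH298.GB.Defs

open MeasureTheory Set Real intervalIntegral Filter Topology

namespace TH259.FB

/-- The certificate lemma of project GB. -/
theorem gen : Pool.Agent.TH298.GB.Gen := by
  intro b L Z Z1 Z2 hb hc hcont hL0 hLb hZ hZ1 hZ2 hn hZb hor
  obtain ⟨B, hB⟩ := isCompact_Icc.exists_bound_of_continuousOn (s := Icc 0 b)
    hZ2.continuousOn
  have cZ1 : Continuous Z1 := continuous_iff_continuousAt.2 fun t => (hZ1 t).continuousAt
  have cZ : Continuous Z := continuous_iff_continuousAt.2 fun t => (hZ t).continuousAt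
  -- the derivative at the right end
  have hDb : 0 ≤ Z1 b := by
    by_contra hneg
    push Not at hneg
    have h1 := (hasDerivAt_iff_tendsto_slope.1 (hZ b)).eventually (gt_mem_nhds hneg)
    rw [eventually_nhdsWithin_iff] at h1
    have h2 : ∀ᶠ x in 𝓝[<] b, slope Z b x < 0 := by
      filter_upwards [nhdsWithin_le_nhds h1, self_mem_nhdsWithin] with x hx hxb
      exact hx (ne_of_lt hxb)
    have h3 : ∀ᶠ x in 𝓝[<] b, 0 < x := nhdsWithin_le_nhds (lt_mem_nhds hb)
    obtain ⟨x, hx1, hx2, hx3⟩ := (h2.and (h3.and self_mem_nhdsWithin)).exists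
    have hx3' : x < b := hx3
    have h4 := hn x ⟨hx2.le, hx3'.le⟩
    rw [slope_def_field, hZb] at hx1
    have h5 : 0 ≤ (Z x - 0) / (x - b) := div_nonneg_of_nonpos (by linarith) (by linarith)
    linarith
  have key : ∀ ε : ℝ, 0 < ε → -(ε * (|B| * b)) ≤ (∫ t in (0 : ℝ)..b, L t * Z2 t) + L 0 * Z1 0 := by
    intro ε hε
    set f : ℝ → ℝ := fun x => L (b * x) with hf
    have hmap : ∀ x ∈ Icc (0 : ℝ) 1, b * x ∈ Icc 0 b := by
      intro x hx
      exact ⟨mul_nonneg hb.le hx.1, by nlinarith [hx.2]⟩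
    have hfconc : ConcaveOn ℝ (Icc 0 1) f := by
      refine ⟨convex_Icc 0 1, fun x hx y hy u v hu hv huv => ?_⟩
      have := hc.2 (hmap x hx) (hmap y hy) hu hv huv
      simp only [smul_eq_mul] at this ⊢
      have e : u * (b * x) + v * (b * y) = b * (u * x + v * y) := by ring
      rw [e] at this
      exact this
    have hfcont : ContinuousOn f (Icc 0 1) := hcont.comp (by fun_prop) hmap
    obtain ⟨q, hqf, hq0, hq1, hqdd, hqa⟩ := approx01 hfconc hfcont hε
    set Q : ℝ → ℝ := fun t => q.eval (t / b) with hQ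
    set Q1 : ℝ → ℝ := fun t => (Polynomial.derivative q).eval (t / b) / b with hQ1
    set Q2 : ℝ → ℝ := fun t =>
      (Polynomial.derivative (Polynomial.derivative q)).eval (t / b) / b ^ 2 with hQ2
    have din : ∀ t : ℝ, HasDerivAt (fun t => t / b) (1 / b) t := fun t =>
      (hasDerivAt_id t).div_const b
    have dQ : ∀ t, HasDerivAt Q (Q1 t) t := by
      intro t
      have := (q.hasDerivAt (t / b)).comp t (din t)
      convert! this using 1
      rw [hQ1]; ring
    have dQ1 : ∀ t, HasDerivAt Q1 (Q2 t) t := by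
      intro t
      have := (((Polynomial.derivative q).hasDerivAt (t / b)).comp t (din t)).div_const b
      convert! this using 1
      rw [hQ2]; field_simp
    have cQ2 : Continuous Q2 := by
      rw [hQ2]
      exact ((Polynomial.continuous _).comp (by fun_prop)).div_const _
    have cQ : Continuous Q := continuous_iff_continuousAt.2 fun t => (dQ t).continuousAt
    have hin : ∀ t ∈ Icc 0 b, t / b ∈ Icc (0 : ℝ) 1 := by
      intro t ht
      exact ⟨div_nonneg ht.1 hb.le, by rw [div_le_one hb]; exact ht.2⟩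
    have hQL : ∀ t ∈ Icc 0 b, |Q t - L t| ≤ ε := by
      intro t ht
      have := hqf _ (hin t ht)
      rw [hf] at this
      simp only at this
      rw [mul_div_cancel₀ _ hb.ne'] at this
      exact this
    have hQ0 : Q 0 = L 0 := by
      rw [hQ]; simp only [zero_div]; rw [hq0, hf]; simp
    have hQb : Q b = L b := by
      rw [hQ]; simp only; rw [div_self hb.ne', hq1, hf]; simp
    have h1 : ∫ t in (0 : ℝ)..b, (Q t * Z2 t - Q2 t * Z t)
        = (Q b * Z1 b - Q1 b * Z b) - (Q 0 * Z1 0 - Q1 0 * Z 0) := by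
      refine integral_eq_sub_of_hasDerivAt
        (f := fun t => Q t * Z1 t - Q1 t * Z t) (fun t _ => ?_) ?_
      · have := ((dQ t).mul (hZ1 t)).sub ((dQ1 t).mul (hZ t))
        convert! this using 1
        ring
      · exact ((cQ.mul hZ2).sub (cQ2.mul cZ)).intervalIntegrable _ _
    have h2 : ∫ t in (0 : ℝ)..b, (Q t * Z2 t - Q2 t * Z t)
        = (∫ t in (0 : ℝ)..b, Q t * Z2 t) - ∫ t in (0 : ℝ)..b, Q2 t * Z t :=
      integral_sub ((cQ.mul hZ2).intervalIntegrable _ _) ((cQ2.mul cZ).intervalIntegrable _ _)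
    have h3 : 0 ≤ ∫ t in (0 : ℝ)..b, Q2 t * Z t := integral_nonneg hb.le fun t ht =>
      mul_nonneg_of_nonpos_of_nonpos
        (div_nonpos_of_nonpos_of_nonneg (hqdd _ (hin t ht)) (by positivity)) (hn t ht)
    have h4 : 0 ≤ Q1 0 * Z 0 := by
      rcases hor with h | h
      · rw [h, mul_zero]
      · refine mul_nonneg_of_nonpos_of_nonpos ?_ (hn 0 ⟨le_rfl, hb.le⟩)
        rw [hQ1]
        simp only [zero_div]
        refine div_nonpos_of_nonpos_of_nonneg (hqa fun x hx y hy hxy => ?_) hb.le
        exact h (hmap x hx) (hmap y hy) (mul_le_mul_of_nonneg_left hxy hb.le)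
    have h5 : 0 ≤ Q b * Z1 b := mul_nonneg (by rw [hQb]; exact hLb) hDb
    have h6 : (∫ t in (0 : ℝ)..b, Q t * Z2 t) - (∫ t in (0 : ℝ)..b, L t * Z2 t)
        ≤ ε * (|B| * b) := by
      have iL : IntervalIntegrable (fun t => L t * Z2 t) volume 0 b := by
        refine ContinuousOn.intervalIntegrable ?_
        rw [uIcc_of_le hb.le]
        exact hcont.mul hZ2.continuousOn
      have iQ : IntervalIntegrable (fun t => Q t * Z2 t) volume 0 b :=
        (cQ.mul hZ2).intervalIntegrable _ _
      rw [← integral_sub iQ iL]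
      have h1 : ‖∫ t in (0 : ℝ)..b, (Q t * Z2 t - L t * Z2 t)‖ ≤ (ε * |B|) * |b - 0| := by
        refine norm_integral_le_of_norm_le_const fun t ht => ?_
        rw [uIoc_of_le hb.le] at ht
        have hm : t ∈ Icc 0 b := ⟨ht.1.le, ht.2⟩
        rw [← sub_mul, norm_mul]
        exact mul_le_mul (hQL t hm) ((hB t hm).trans (le_abs_self _)) (norm_nonneg _) hε.le
      rw [sub_zero, abs_of_pos hb] at h1
      have h2 := (le_abs_self _).trans h1
      linarith
    rw [hZb, mul_zero, sub_zero, hQ0] at h1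
    linarith
  by_contra hneg
  push Not at hneg
  set E := (∫ t in (0 : ℝ)..b, L t * Z2 t) + L 0 * Z1 0 with hE
  have hE0 : E < 0 := by rw [hE]; linarith
  have hC : 0 ≤ |B| * b := by positivity
  have h1 := key (-E / (2 * (|B| * b + 1))) (div_pos (by linarith) (by positivity))
  have h2 : -E / (2 * (|B| * b + 1)) * (|B| * b) ≤ -E / 2 := by
    rw [div_mul_eq_mul_div, div_le_div_iff₀ (by positivity) (by norm_num)]
    nlinarith
  linarith

end TH259.FB
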