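import Pool.Agent.TH259.FB.Red
import Pool.Agent.TH298.GB.Chk

/-! Numerical verification of the inequalities behind `Near` and `Far`. -/

open Set Real
open Pool.Agent.TH298.GB

namespace TH259.FB

noncomputable def tp (p0 p1 p2 p3 s0 s1 c0 c1 : ℤ) (t : ℝ) : ℝ :=
  p0 + p1 * t + p2 * t ^ 2 + p3 * t ^ 3 + (s0 + s1 * t) * sin t + (c0 + c1 * t) * cos t

theorem tp_deriv (p0 p1 p2 p3 s0 s1 c0 c1 : ℤ) (t : ℝ) :
    HasDerivAt (tp p0 p1 p2 p3 s0 s1 c0 c1)
      (tp p1 (2 * p2) (3 * p3) 0 (s1 - c0) (-c1) (s0 + c1) s1 t) t := by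
  unfold tp
  have h1 := (((((hasDerivAt_id t).const_mul (p1 : ℝ)).const_add (p0 : ℝ)).add
    ((hasDerivAt_pow 2 t).const_mul (p2 : ℝ))).add ((hasDerivAt_pow 3 t).const_mul (p3 : ℝ))).add
    ((((hasDerivAt_id t).const_mul (s1 : ℝ)).const_add (s0 : ℝ)).mul (hasDerivAt_sin t))
  have h2 := (((hasDerivAt_id t).const_mul (c1 : ℝ)).const_add (c0 : ℝ)).mul (hasDerivAt_cos t)
  have h := h1.add h2
  convert! h using 1
  push_cast
  simp only [pow_one, id]
  ring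

/-- the checker for `tp` -/
theorem tp_pos (p0 p1 p2 p3 s0 s1 c0 c1 : ℤ) (E x : ℤ) (l : List ℤ) (hE : 0 < E) (hl : l ≠ [])
    (hc : chkL E [p0, p1, p2, p3] [s0, s1, 0, 0] [c0, c1, 0, 0]
      [p1, 2 * p2, 3 * p3, 0] [s1 - c0, -c1, 0, 0] [s0 + c1, s1, 0, 0]
      [2 * p2, 6 * p3, 0, 0] [-s0 - 2 * c1, -s1, 0, 0] [2 * s1 - c0, -c1, 0, 0] x l = true) :
    ∀ t : ℝ, 2 * x / E ≤ t → t ≤ 2 * (lastD x l) / E → 0 < tp p0 p1 p2 p3 s0 s1 c0 c1 t := by
  refine chkL_sound (tp_deriv p0 p1 p2 p3 s0 s1 c0 c1)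
    (tp_deriv p1 (2 * p2) (3 * p3) 0 (s1 - c0) (-c1) (s0 + c1) s1) 4 ?_ ?_ ?_
    (by simp) hE l x hl hc
  · intro t
    simp only [tp, ev]
    push_cast
    ring
  · intro t
    simp only [tp, ev]
    push_cast
    ring
  · intro t
    simp only [tp, ev]
    push_cast
    ring

/-- If `g` is increasing on `[t1, L]`, `g ≤ m` before `t1`, `m ≤ g w`, then `g t ≤ g l`. -/
theorem ratio_mono {G G1 : ℝ → ℝ} (hG : ∀ t, HasDerivAt G (G1 t) t) {t1 w L m : ℝ}
    (ht1 : 0 < t1) (hw : t1 ≤ w) (hA : ∀ t, 0 ≤ t → t ≤ t1 → G t ≤ m * t)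
    (hB : ∀ t, t1 ≤ t → t ≤ L → 0 < t * G1 t - G t) (hC : m * w ≤ G w) :
    ∀ l, w ≤ l → l ≤ L → ∀ t ∈ Icc 0 l, l * G t ≤ t * G l := by
  have hmono : MonotoneOn (fun t => G t / t) (Icc t1 L) := by
    have hd : ∀ t ∈ Icc t1 L, HasDerivAt (fun t => G t / t) ((G1 t * t - G t * 1) / t ^ 2) t := by
      intro t ht
      exact (hG t).div (hasDerivAt_id t) (ne_of_gt (lt_of_lt_of_le ht1 ht.1))
    refine monotoneOn_of_deriv_nonneg (convex_Icc _ _)
      (fun t ht => (hd t ht).continuousAt.continuousWithinAt)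
      (fun t ht => (hd t (interior_subset ht)).differentiableAt.differentiableWithinAt) ?_
    intro t ht
    rw [(hd t (interior_subset ht)).deriv]
    have ht' := interior_subset ht
    have := hB t ht'.1 ht'.2
    exact div_nonneg (by linarith) (sq_nonneg t)
  intro l hl1 hl2 t ht
  have hlpos : 0 < l := by linarith
  have hwpos : 0 < w := by linarith
  rcases le_total t t1 with h | h
  · have h1 := hA t ht.1 h
    have h2 : G w / w ≤ G l / l := hmono ⟨hw, hl1.trans hl2⟩ ⟨hw.trans hl1, hl2⟩ hl1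
    have h3 : m ≤ G w / w := by rw [le_div_iff₀ hwpos]; exact hC
    have h4 : m * l ≤ G l := by rw [← le_div_iff₀ hlpos]; exact h3.trans h2
    have h5 := mul_le_mul_of_nonneg_left h1 hlpos.le
    have h6 := mul_le_mul_of_nonneg_left h4 ht.1
    linarith
  · have htpos : 0 < t := by linarith
    have h2 : G t / t ≤ G l / l := hmono ⟨h, ht.2.trans hl2⟩ ⟨h.trans ht.2, hl2⟩ ht.2
    rw [div_le_div_iff₀ htpos hlpos] at h2
    linarith

/-- `F ≤ m t` from the sign of the derivative near `0` -/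
theorem le_of_small {G G1 : ℝ → ℝ} (hG : ∀ t, HasDerivAt G (G1 t) t) (h0 : G 0 = 0) {δ m : ℝ}
    (hd : ∀ t, 0 ≤ t → t ≤ δ → G1 t ≤ m) : ∀ t, 0 ≤ t → t ≤ δ → G t ≤ m * t := by
  intro t ht ht2
  have hmono : MonotoneOn (fun t => m * t - G t) (Icc 0 δ) := by
    have hd' : ∀ t, HasDerivAt (fun t => m * t - G t) (m * 1 - G1 t) t := fun t =>
      ((hasDerivAt_id t).const_mul m).sub (hG t)
    refine monotoneOn_of_deriv_nonneg (convex_Icc _ _)
      (fun t _ => (hd' t).continuousAt.continuousWithinAt)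
      (fun t _ => (hd' t).differentiableAt.differentiableWithinAt) ?_
    intro t ht
    rw [(hd' t).deriv]
    have ht' := interior_subset ht
    have := hd t ht'.1 ht'.2
    linarith
  have := hmono ⟨le_rfl, ht.trans ht2⟩ ⟨ht, ht2⟩ ht
  simp only [mul_zero, h0, sub_zero] at this
  linarith

/-- `G t = g3 t^3 + g2 t^2 + a (1 - cos t) + b sin t` -/
noncomputable def GG (g3 g2 a b : ℤ) (t : ℝ) : ℝ :=
  g3 * t ^ 3 + g2 * t ^ 2 + a * (1 - cos t) + b * sin t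

noncomputable def GG1 (g3 g2 a b : ℤ) (t : ℝ) : ℝ :=
  3 * g3 * t ^ 2 + 2 * g2 * t + a * sin t + b * cos t

theorem GG_deriv (g3 g2 a b : ℤ) (t : ℝ) :
    HasDerivAt (GG g3 g2 a b) (GG1 g3 g2 a b t) t := by
  unfold GG GG1
  have h := ((((hasDerivAt_pow 3 t).const_mul (g3 : ℝ)).add
    ((hasDerivAt_pow 2 t).const_mul (g2 : ℝ))).add
    (((hasDerivAt_cos t).const_sub 1).const_mul (a : ℝ))).add
    ((hasDerivAt_sin t).const_mul (b : ℝ))
  convert! h using 1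
  simp only [Nat.cast_ofNat, Nat.add_one_sub_one, pow_one]
  ring

theorem GG_zero (g3 g2 a b : ℤ) : GG g3 g2 a b 0 = 0 := by unfold GG; simp

/-- Integer data for one certificate; the grid is in units of `1/200`. -/
theorem num (g3 g2 a b q x1 x2 w L : ℤ) (la lb lc : List ℤ)
    (ha : la ≠ []) (hb : lb ≠ []) (hc : lc ≠ [])
    (hx1 : lastD 0 la = x1) (hx2 : lastD x1 lb = x2) (hL : lastD x2 lc = L)
    (h1 : 0 < x2) (h2 : x2 ≤ w)
    -- `q - G'` on `[0, x1]`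
    (c1 : chkL 400 [q, -2 * g2, -3 * g3, 0] [-a, 0, 0, 0] [-b, 0, 0, 0]
      [-2 * g2, 2 * (-3 * g3), 3 * 0, 0] [0 - -b, -0, 0, 0] [-a + 0, 0, 0, 0]
      [2 * (-3 * g3), 6 * 0, 0, 0] [- -a - 2 * 0, -0, 0, 0] [2 * 0 - -b, -0, 0, 0]
      0 la = true)
    -- `q t - G` on `[x1, x2]`
    (c2 : chkL 400 [-a, q, -g2, -g3] [-b, 0, 0, 0] [a, 0, 0, 0]
      [q, 2 * -g2, 3 * -g3, 0] [0 - a, -0, 0, 0] [-b + 0, 0, 0, 0]
      [2 * -g2, 6 * -g3, 0, 0] [- -b - 2 * 0, -0, 0, 0] [2 * 0 - a, -0, 0, 0]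
      x1 lb = true)
    -- `t G' - G` on `[x2, L]`
    (c3 : chkL 400 [-a, 0, g2, 2 * g3] [-b, a, 0, 0] [a, b, 0, 0]
      [0, 2 * g2, 3 * (2 * g3), 0] [a - a, -b, 0, 0] [-b + b, a, 0, 0]
      [2 * g2, 6 * (2 * g3), 0, 0] [- -b - 2 * b, -a, 0, 0] [2 * a - a, -b, 0, 0]
      x2 lc = true)
    -- `G w - q w`
    (c4 : chkL 400 [a, -q, g2, g3] [b, 0, 0, 0] [-a, 0, 0, 0]
      [-q, 2 * g2, 3 * g3, 0] [0 - -a, -0, 0, 0] [b + 0, 0, 0, 0]
      [2 * g2, 6 * g3, 0, 0] [-b - 2 * 0, -0, 0, 0] [2 * 0 - -a, -0, 0, 0]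
      w [w] = true) :
    ∀ l : ℝ, (w : ℝ) / 200 ≤ l → l ≤ (L : ℝ) / 200 → ∀ t ∈ Icc 0 l,
      l * GG g3 g2 a b t ≤ t * GG g3 g2 a b l := by
  have f1 := tp_pos _ _ _ _ _ _ _ _ 400 0 la (by norm_num) ha c1
  have f2 := tp_pos _ _ _ _ _ _ _ _ 400 x1 lb (by norm_num) hb c2
  have f3 := tp_pos _ _ _ _ _ _ _ _ 400 x2 lc (by norm_num) hc c3
  have f4 := tp_pos _ _ _ _ _ _ _ _ 400 w [w] (by norm_num) (by simp) c4
  rw [hx1] at f1
  rw [hx2] at f2
  rw [hL] at f3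
  simp only [lastD] at f4
  have h1' : (0 : ℝ) < x2 := by exact_mod_cast h1
  have h2' : (x2 : ℝ) ≤ w := by exact_mod_cast h2
  have s1 : ∀ t : ℝ, 0 ≤ t → t ≤ (x1 : ℝ) / 200 → GG1 g3 g2 a b t ≤ q := by
    intro t ht ht2
    have := f1 t (by push_cast; linarith) (by push_cast; linarith)
    unfold tp at this
    unfold GG1
    push_cast at this
    linarith
  have s2 := le_of_small (GG_deriv g3 g2 a b) (GG_zero _ _ _ _) s1
  refine ratio_mono (t1 := (x2 : ℝ) / 200) (w := (w : ℝ) / 200) (m := (q : ℝ))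
    (GG_deriv g3 g2 a b) (by positivity) (by linarith) ?_ ?_ ?_
  · intro t ht ht2
    rcases le_total t ((x1 : ℝ) / 200) with h | h
    · exact s2 t ht h
    · have := f2 t (by push_cast; linarith) (by push_cast; linarith)
      unfold tp at this
      unfold GG
      push_cast at this
      linarith
  · intro t ht ht2
    have := f3 t (by push_cast; linarith) (by push_cast; linarith)
    unfold tp at this
    unfold GG GG1
    push_cast at this
    linarith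
  · have := f4 ((w : ℝ) / 200) (by push_cast; linarith) (by push_cast; linarith)
    unfold tp at this
    unfold GG
    push_cast at this
    linarith

end TH259.FB
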