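import Pool.Agent.TH259.FB.Gen

/-! Reduction of the one-dimensional statements `Near` and `Far` of project GB to an inequality
for the explicit function `g t = t^3/6 - d t^2/2 + α (1 - cos t) - β sin t`. -/

open MeasureTheory Set Real intervalIntegral Filter Topology
open Pool.Agent.TH298.GB

namespace TH259.FB

theorem deriv_left_nonpos {b : ℝ} (hb : 0 < b) {Z Z1 : ℝ → ℝ} (hZ : ∀ t, HasDerivAt Z (Z1 t) t)
    (hn : ∀ t ∈ Icc 0 b, Z t ≤ 0) (h0 : Z 0 = 0) : Z1 0 ≤ 0 := by
  by_contra hneg
  push Not at hneg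
  have h1 := (hasDerivAt_iff_tendsto_slope.1 (hZ 0)).eventually (lt_mem_nhds hneg)
  rw [eventually_nhdsWithin_iff] at h1
  have h2 : ∀ᶠ x in 𝓝[>] (0 : ℝ), 0 < slope Z 0 x := by
    filter_upwards [nhdsWithin_le_nhds h1, self_mem_nhdsWithin] with x hx hxb
    exact hx (ne_of_gt hxb)
  have h3 : ∀ᶠ x in 𝓝[>] (0 : ℝ), x < b := nhdsWithin_le_nhds (gt_mem_nhds hb)
  obtain ⟨x, hx1, hx2, hx3⟩ := (h2.and (h3.and self_mem_nhdsWithin)).exists
  have hx3' : 0 < x := hx3
  have h4 := hn x ⟨hx3'.le, hx2.le⟩
  rw [slope_def_field, h0] at hx1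
  have h5 : (Z x - 0) / (x - 0) ≤ 0 := div_nonpos_of_nonpos_of_nonneg (by linarith) (by linarith)
  linarith

/-- the second primitive of `t - d + α cos t + β sin t` vanishing at `0` -/
noncomputable def gg (d α β t : ℝ) : ℝ := t ^ 3 / 6 - d * t ^ 2 / 2 + α * (1 - cos t) - β * sin t

noncomputable def gg1 (d α β t : ℝ) : ℝ := t ^ 2 / 2 - d * t + α * sin t - β * cos t

theorem gg_deriv (d α β t : ℝ) : HasDerivAt (gg d α β) (gg1 d α β t) t := by
  unfold gg gg1
  have h := ((((hasDerivAt_pow 3 t).div_const 6).sub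
    (((hasDerivAt_pow 2 t).const_mul d).div_const 2)).add
    (((hasDerivAt_cos t).const_sub 1).const_mul α)).sub ((hasDerivAt_sin t).const_mul β)
  convert! h using 1
  simp only [Nat.cast_ofNat, Nat.add_one_sub_one, pow_one]
  ring

theorem gg1_deriv (d α β t : ℝ) :
    HasDerivAt (gg1 d α β) (t - d + α * cos t + β * sin t) t := by
  unfold gg1
  have h := ((((hasDerivAt_pow 2 t).div_const 2).sub
    ((hasDerivAt_id t).const_mul d)).add
    ((hasDerivAt_sin t).const_mul α)).sub ((hasDerivAt_cos t).const_mul β)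
  convert! h using 1
  simp only [Nat.cast_ofNat, Nat.add_one_sub_one, pow_one]
  ring

theorem gg_zero (d α β : ℝ) : gg d α β 0 = 0 := by unfold gg; simp

/-- concave functions on `[0, l]`: the functional attached to `gg` is nonnegative if
`gg t / t ≤ gg l / l` -/
theorem core_near {l d α β : ℝ} (hl : 0 < l) {s : ℝ → ℝ} (hc : ConcaveOn ℝ (Icc 0 l) s)
    (hcont : ContinuousOn s (Icc 0 l)) (h0 : 0 ≤ s 0) (hb : 0 ≤ s l)
    (hG : ∀ t ∈ Icc 0 l, l * gg d α β t ≤ t * gg d α β l) :
    0 ≤ ∫ t in (0 : ℝ)..l, s t * (t - d + α * cos t + β * sin t) := by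
  have hZd : ∀ t, HasDerivAt (fun t => gg d α β t - t * (gg d α β l / l))
      (gg1 d α β t - gg d α β l / l) t := by
    intro t
    have h := (gg_deriv d α β t).sub ((hasDerivAt_id t).mul_const (gg d α β l / l))
    convert! h using 1
    ring
  have hZ1d : ∀ t, HasDerivAt (fun t => gg1 d α β t - gg d α β l / l)
      (t - d + α * cos t + β * sin t) t := fun t =>
    (gg1_deriv d α β t).sub_const _
  have hn : ∀ t ∈ Icc 0 l, (fun t => gg d α β t - t * (gg d α β l / l)) t ≤ 0 := by
    intro t ht
    have h := hG t ht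
    have e : gg d α β t - t * (gg d α β l / l) = (l * gg d α β t - t * gg d α β l) / l := by
      field_simp
    simp only
    rw [e]
    exact div_nonpos_of_nonpos_of_nonneg (by linarith) hl.le
  have hz0 : (fun t => gg d α β t - t * (gg d α β l / l)) 0 = 0 := by
    simp [gg_zero]
  have hzl : (fun t => gg d α β t - t * (gg d α β l / l)) l = 0 := by
    simp only
    rw [mul_div_cancel₀ _ hl.ne', sub_self]
  have h1 := deriv_left_nonpos hl hZd hn hz0
  have h2 := gen l s _ _ _ hl hc hcont h0 hb hZd hZ1d (by fun_prop) hn hzl (Or.inl hz0)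
  have h3 : s 0 * (gg1 d α β 0 - gg d α β l / l) ≤ 0 := mul_nonpos_of_nonneg_of_nonpos h0 h1
  linarith

theorem core_far {l d α β : ℝ} (hl : 0 < l) {s : ℝ → ℝ} (hc : ConcaveOn ℝ (Icc 0 l) s)
    (hcont : ContinuousOn s (Icc 0 l)) (h0 : 0 ≤ s 0) (hb : 0 ≤ s l)
    (hG : ∀ t ∈ Icc 0 l, t * gg d α β l ≤ l * gg d α β t) :
    ∫ t in (0 : ℝ)..l, s t * (t - d + α * cos t + β * sin t) ≤ 0 := by
  have hZd : ∀ t, HasDerivAt (fun t => t * (gg d α β l / l) - gg d α β t)
      (gg d α β l / l - gg1 d α β t) t := by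
    intro t
    have h := ((hasDerivAt_id t).mul_const (gg d α β l / l)).sub (gg_deriv d α β t)
    convert! h using 1
    ring
  have hZ1d : ∀ t, HasDerivAt (fun t => gg d α β l / l - gg1 d α β t)
      (-(t - d + α * cos t + β * sin t)) t := fun t =>
    (gg1_deriv d α β t).const_sub _
  have hn : ∀ t ∈ Icc 0 l, (fun t => t * (gg d α β l / l) - gg d α β t) t ≤ 0 := by
    intro t ht
    have h := hG t ht
    have e : t * (gg d α β l / l) - gg d α β t = (t * gg d α β l - l * gg d α β t) / l := by
      field_simp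
    simp only
    rw [e]
    exact div_nonpos_of_nonpos_of_nonneg (by linarith) hl.le
  have hz0 : (fun t => t * (gg d α β l / l) - gg d α β t) 0 = 0 := by
    simp [gg_zero]
  have hzl : (fun t => t * (gg d α β l / l) - gg d α β t) l = 0 := by
    simp only
    rw [mul_div_cancel₀ _ hl.ne', sub_self]
  have h1 := deriv_left_nonpos hl hZd hn hz0
  have h2 := gen l s _ _ _ hl hc hcont h0 hb hZd hZ1d (by fun_prop) hn hzl (Or.inl hz0)
  have h3 : s 0 * (gg d α β l / l - gg1 d α β 0) ≤ 0 := mul_nonpos_of_nonneg_of_nonpos h0 h1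
  have h4 : ∫ t in (0 : ℝ)..l, s t * (-(t - d + α * cos t + β * sin t))
      = -∫ t in (0 : ℝ)..l, s t * (t - d + α * cos t + β * sin t) := by
    rw [← intervalIntegral.integral_neg]
    refine integral_congr fun t _ => ?_
    ring
  rw [h4] at h2
  linarith

section prof
variable {a b : ℝ} {s : ℝ → ℝ}

theorem prof_int (h : Prof a b s) {F : ℝ → ℝ} (hF : Continuous F) :
    IntervalIntegrable (fun x => s x * F x) volume a b := by
  refine ContinuousOn.intervalIntegrable ?_
  rw [uIcc_of_le h.lt.le]
  exact h.cont.mul hF.continuousOn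

theorem prof_cos (h : Prof a b s) (c : ℝ) : ∫ x in a..b, s x * cos (x - c) = 0 := by
  have e : ∀ x, s x * cos (x - c) = cos c * (s x * cos x) + sin c * (s x * sin x) := by
    intro x; rw [cos_sub]; ring
  simp_rw [e]
  rw [integral_add ((prof_int h continuous_cos).const_mul _)
    ((prof_int h continuous_sin).const_mul _), intervalIntegral.integral_const_mul,
    intervalIntegral.integral_const_mul, h.fcos, h.fsin]
  simp

theorem prof_sin (h : Prof a b s) (c : ℝ) : ∫ x in a..b, s x * sin (x - c) = 0 := by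
  have e : ∀ x, s x * sin (x - c) = cos c * (s x * sin x) - sin c * (s x * cos x) := by
    intro x; rw [sin_sub]; ring
  simp_rw [e]
  rw [integral_sub ((prof_int h continuous_sin).const_mul _)
    ((prof_int h continuous_cos).const_mul _), intervalIntegral.integral_const_mul,
    intervalIntegral.integral_const_mul, h.fcos, h.fsin]
  simp

/-- the functional seen from the left end -/
theorem prof_left (h : Prof a b s) (d α β : ℝ) :
    ∫ t in (0 : ℝ)..(b - a), s (a + t) * (t - d + α * cos t + β * sin t)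
      = (∫ x in a..b, (x - a) * s x) - d * ∫ x in a..b, s x := by
  have e1 : ∫ t in (0 : ℝ)..(b - a), s (a + t) * (t - d + α * cos t + β * sin t)
      = ∫ x in a..b, s x * ((x - a) - d + α * cos (x - a) + β * sin (x - a)) := by
    have := intervalIntegral.integral_comp_add_left (a := 0) (b := b - a)
      (fun x => s x * ((x - a) - d + α * cos (x - a) + β * sin (x - a))) a
    simp only [add_zero, add_sub_cancel, add_sub_cancel_left] at this
    exact this
  rw [e1]
  have e2 : ∀ x, s x * ((x - a) - d + α * cos (x - a) + β * sin (x - a))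
      = (s x * (x - a) - d * (s x * 1)) + (α * (s x * cos (x - a)) + β * (s x * sin (x - a))) := by
    intro x; ring
  simp_rw [e2]
  have i1 : IntervalIntegrable (fun x => s x * (x - a)) volume a b := prof_int h (by fun_prop)
  have i2 : IntervalIntegrable (fun x => s x * (1 : ℝ)) volume a b := prof_int h (by fun_prop)
  have i3 : IntervalIntegrable (fun x => s x * cos (x - a)) volume a b := prof_int h (by fun_prop)
  have i4 : IntervalIntegrable (fun x => s x * sin (x - a)) volume a b := prof_int h (by fun_prop)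
  rw [integral_add (i1.sub (i2.const_mul d)) ((i3.const_mul α).add (i4.const_mul β)),
    integral_sub i1 (i2.const_mul d), integral_add (i3.const_mul α) (i4.const_mul β),
    intervalIntegral.integral_const_mul, intervalIntegral.integral_const_mul,
    intervalIntegral.integral_const_mul, prof_cos h, prof_sin h]
  simp only [mul_one, mul_zero, add_zero]
  congr 1
  exact integral_congr fun x _ => mul_comm _ _

/-- the functional seen from the right end -/
theorem prof_right (h : Prof a b s) (d α β : ℝ) :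
    ∫ t in (0 : ℝ)..(b - a), s (b - t) * (t - d + α * cos t + β * sin t)
      = (∫ x in a..b, (b - x) * s x) - d * ∫ x in a..b, s x := by
  have e1 : ∫ t in (0 : ℝ)..(b - a), s (b - t) * (t - d + α * cos t + β * sin t)
      = ∫ x in a..b, s x * ((b - x) - d + α * cos (x - b) - β * sin (x - b)) := by
    have := intervalIntegral.integral_comp_sub_left (a := 0) (b := b - a)
      (fun x => s x * ((b - x) - d + α * cos (x - b) - β * sin (x - b))) b
    simp only [sub_zero, sub_sub_cancel] at this
    rw [← this]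
    refine integral_congr fun t _ => ?_
    have e : b - t - b = -t := by ring
    simp only [e, cos_neg, sin_neg]
    ring
  rw [e1]
  have e2 : ∀ x, s x * ((b - x) - d + α * cos (x - b) - β * sin (x - b))
      = (s x * (b - x) - d * (s x * 1)) + (α * (s x * cos (x - b)) - β * (s x * sin (x - b))) := by
    intro x; ring
  simp_rw [e2]
  have i1 : IntervalIntegrable (fun x => s x * (b - x)) volume a b := prof_int h (by fun_prop)
  have i2 : IntervalIntegrable (fun x => s x * (1 : ℝ)) volume a b := prof_int h (by fun_prop)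
  have i3 : IntervalIntegrable (fun x => s x * cos (x - b)) volume a b := prof_int h (by fun_prop)
  have i4 : IntervalIntegrable (fun x => s x * sin (x - b)) volume a b := prof_int h (by fun_prop)
  rw [integral_add (i1.sub (i2.const_mul d)) ((i3.const_mul α).sub (i4.const_mul β)),
    integral_sub i1 (i2.const_mul d), integral_sub (i3.const_mul α) (i4.const_mul β),
    intervalIntegral.integral_const_mul, intervalIntegral.integral_const_mul,
    intervalIntegral.integral_const_mul, prof_cos h, prof_sin h]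
  simp only [mul_one, mul_zero, sub_zero, add_zero]
  congr 1
  exact integral_congr fun x _ => mul_comm _ _

theorem prof_shift (h : Prof a b s) :
    ConcaveOn ℝ (Icc 0 (b - a)) (fun t => s (a + t)) ∧
      ContinuousOn (fun t => s (a + t)) (Icc 0 (b - a)) := by
  have hm : ∀ t ∈ Icc 0 (b - a), a + t ∈ Icc a b := fun t ht =>
    ⟨by linarith [ht.1], by linarith [ht.2]⟩
  refine ⟨⟨convex_Icc _ _, fun x hx y hy u v hu hv huv => ?_⟩, h.cont.comp (by fun_prop) hm⟩
  have := h.conc.2 (hm x hx) (hm y hy) hu hv huv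
  simp only [smul_eq_mul] at this ⊢
  have e : u * (a + x) + v * (a + y) = a + (u * x + v * y) := by
    have : v = 1 - u := by linarith
    rw [this]; ring
  rw [e] at this
  exact this

theorem prof_refl (h : Prof a b s) :
    ConcaveOn ℝ (Icc 0 (b - a)) (fun t => s (b - t)) ∧
      ContinuousOn (fun t => s (b - t)) (Icc 0 (b - a)) := by
  have hm : ∀ t ∈ Icc 0 (b - a), b - t ∈ Icc a b := fun t ht =>
    ⟨by linarith [ht.2], by linarith [ht.1]⟩
  refine ⟨⟨convex_Icc _ _, fun x hx y hy u v hu hv huv => ?_⟩, h.cont.comp (by fun_prop) hm⟩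
  have := h.conc.2 (hm x hx) (hm y hy) hu hv huv
  simp only [smul_eq_mul] at this ⊢
  have e : u * (b - x) + v * (b - y) = b - (u * x + v * y) := by
    have : v = 1 - u := by linarith
    rw [this]; ring
  rw [e] at this
  exact this

end prof

/-- `Near w d` follows from an inequality for `gg` -/
theorem near_of {w d α β : ℝ}
    (hG : ∀ l, w ≤ l → l ≤ 4 * π → ∀ t ∈ Icc 0 l, l * gg d α β t ≤ t * gg d α β l) :
    Near w d := by
  intro a b s h hw hb
  have hl : 0 < b - a := sub_pos.2 h.lt
  have hs := prof_shift h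
  have h1 := core_near hl hs.1 hs.2
    (by simp only [add_zero]; exact h.nonneg a ⟨le_rfl, h.lt.le⟩)
    (by simp only [add_sub_cancel]; exact h.nonneg b ⟨h.lt.le, le_rfl⟩) (hG _ hw hb)
  rw [prof_left h] at h1
  linarith

/-- `Far l0 l1 R` follows from an inequality for `gg` -/
theorem far_of {l0 l1 R α β : ℝ}
    (hG : ∀ l, l0 ≤ l → l ≤ l1 → ∀ t ∈ Icc 0 l, t * gg R α β l ≤ l * gg R α β t) :
    Far l0 l1 R := by
  intro a b s h hw hb
  have hl : 0 < b - a := sub_pos.2 h.lt
  have hs := prof_refl h
  have h1 := core_far hl hs.1 hs.2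
    (by simp only [sub_zero]; exact h.nonneg b ⟨h.lt.le, le_rfl⟩)
    (by simp only [sub_sub_cancel]; exact h.nonneg a ⟨le_rfl, h.lt.le⟩) (hG _ hw hb)
  rw [prof_right h] at h1
  linarith

theorem far_union {l0 l1 l2 R : ℝ} (h1 : Far l0 l1 R) (h2 : Far l1 l2 R) : Far l0 l2 R := by
  intro a b s h hw hb
  rcases le_total (b - a) l1 with hh | hh
  · exact h1 a b s h hw hh
  · exact h2 a b s h hh hb

theorem far_mono {l0 l1 R R' : ℝ} (hR : R ≤ R') (h1 : Far l0 l1 R) : Far l0 l1 R' := by
  intro a b s h hw hb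
  have h0 : 0 ≤ ∫ x in a..b, s x := integral_nonneg h.lt.le fun x hx => h.nonneg x hx
  have := h1 a b s h hw hb
  nlinarith

/-- the trivial bound: the centroid is at distance at most `2/3` of the width -/
theorem far_triv {l0 l1 R : ℝ} (hR : 2 * l1 ≤ 3 * R) : Far l0 l1 R := by
  intro a b s h hw hb
  refine far_of (l0 := b - a) (l1 := b - a) (R := R) (α := 0) (β := 0) ?_ a b s h le_rfl le_rfl
  intro l h1 h2 t ht
  have hl : l = b - a := le_antisymm h2 h1
  have hR' : 2 * l ≤ 3 * R := by rw [hl]; linarith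
  have ht0 := ht.1
  have htl := ht.2
  unfold gg
  simp only [zero_mul, add_zero, sub_zero]
  have e : l * (t ^ 3 / 6 - R * t ^ 2 / 2) - t * (l ^ 3 / 6 - R * l ^ 2 / 2)
      = t * l * (l - t) * (3 * R - (l + t)) / 6 := by ring
  have : 0 ≤ t * l * (l - t) * (3 * R - (l + t)) / 6 := by
    apply div_nonneg _ (by norm_num)
    apply mul_nonneg (mul_nonneg (mul_nonneg ht0 (ht0.trans htl)) (by linarith))
    linarith
  linarith

end TH259.FB
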